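import Pool.Agent.K1H81.HV.Good

/-!
# The limit law as a product of normal laws
-/

set_option autoImplicit false
set_option linter.unusedSectionVars false

namespace Pool.Agent.K1H81.HV

open Finset hiding val
open MeasureTheory ProbabilityTheory
open Pool.Agent.Y722.HS Pool.Agent.X280.HG Pool.Agent.X280.BP Pool.Agent.X280.UC

theorem measurable_vec (r : ℕ) : Measurable (vec r) := (continuous_vec r).measurable

theorem limitLaw_eq (r : ℕ) : limitLaw r = (gam r).map (vec r) := by
  have h1 : ∀ k : Fin r, (gaussianReal 0 1).map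
      (fun x => √((k : ℕ) + 1 : ℕ) * x + ev2 ((k : ℕ) + 1)) =
      gaussianReal (if Even ((k : ℕ) + 1) then 1 else 0) (((k : ℕ) + 1 : ℕ) : NNReal) := by
    intro k
    have h2 : (fun x : ℝ => √((k : ℕ) + 1 : ℕ) * x + ev2 ((k : ℕ) + 1)) =
        (fun x => x + ev2 ((k : ℕ) + 1)) ∘ (fun x => √((k : ℕ) + 1 : ℕ) * x) := rfl
    rw [h2, ← Measure.map_map (by fun_prop) (by fun_prop), gaussianReal_map_const_mul,
      gaussianReal_map_add_const, mul_zero, zero_add, mul_one]
    congr 1
    apply NNReal.eq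
    change √(((k : ℕ) + 1 : ℕ) : ℝ) ^ 2 = ((((k : ℕ) + 1 : ℕ) : NNReal) : ℝ)
    rw [Real.sq_sqrt (Nat.cast_nonneg _)]
    simp
  unfold limitLaw gam
  have h3 := Measure.pi_map_pi (μ := fun _ : Fin r => gaussianReal 0 1)
    (f := fun (k : Fin r) (x : ℝ) => √((k : ℕ) + 1 : ℕ) * x + ev2 ((k : ℕ) + 1))
    (fun k => by fun_prop)
  change _ = Measure.map (fun (x : Fin r → ℝ) (k : Fin r) =>
    √((k : ℕ) + 1 : ℕ) * x k + ev2 ((k : ℕ) + 1)) _
  rw [h3]
  congr 1
  funext k
  exact (h1 k).symm

theorem continuous_mv {r : ℕ} (φ : MvPolynomial (Fin r) ℝ) :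
    Continuous fun z : Fin r → ℝ => MvPolynomial.eval z φ := MvPolynomial.continuous_eval φ

theorem mean_limit {r : ℕ} (φ : MvPolynomial (Fin r) ℝ) :
    ∫ z, MvPolynomial.eval z φ ∂(limitLaw r) = mean φ := by
  rw [limitLaw_eq, integral_map (measurable_vec r).aemeasurable
    (continuous_mv φ).aestronglyMeasurable]
  rfl

theorem var_limit {r : ℕ} (φ : MvPolynomial (Fin r) ℝ) :
    ∫ z, (MvPolynomial.eval z φ - mean φ) ^ 2 ∂(limitLaw r) = mean (φ ^ 2) - mean φ ^ 2 := by
  have e : (fun z : Fin r → ℝ => (MvPolynomial.eval z φ - mean φ) ^ 2) = fun z =>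
      MvPolynomial.eval z ((φ - MvPolynomial.C (mean φ)) ^ 2) := by
    funext z
    simp
  rw [e, mean_limit]
  have e2 : (fun g : Fin r → ℝ => MvPolynomial.eval (vec r g) ((φ - MvPolynomial.C (mean φ)) ^ 2)) =
      fun g => (MvPolynomial.eval (vec r g) (φ ^ 2) -
        2 * mean φ * MvPolynomial.eval (vec r g) φ) + mean φ ^ 2 := by
    funext g
    simp only [map_pow, map_sub, MvPolynomial.eval_C]
    ring
  have e3 : mean ((φ - MvPolynomial.C (mean φ)) ^ 2) = ∫ g, ((MvPolynomial.eval (vec r g) (φ ^ 2) -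
        2 * mean φ * MvPolynomial.eval (vec r g) φ) + mean φ ^ 2) ∂(gam r) := by
    rw [← e2]
    rfl
  rw [e3, integral_add, integral_sub, integral_const_mul, integral_const]
  · unfold mean
    simp
    ring
  · exact integrable_eval _
  · exact (integrable_eval φ).const_mul _
  · exact (integrable_eval _).sub ((integrable_eval φ).const_mul _)
  · exact integrable_const _

/-- A polynomial which is not constant has positive weighted degree. -/
theorem wdeg_pos {r : ℕ} (φ : MvPolynomial (Fin r) ℝ) (hφ : ∀ a, φ ≠ MvPolynomial.C a) :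
    1 ≤ φ.weightedTotalDegree fun i : Fin r => (i : ℕ) + 1 := by
  by_contra hcon
  have h0 : (φ.weightedTotalDegree fun i : Fin r => (i : ℕ) + 1) = 0 := by omega
  apply hφ (φ.coeff 0)
  have h1 := WD_total φ
  rw [h0] at h1
  ext α
  rw [MvPolynomial.coeff_C]
  by_cases h2 : α ∈ φ.support
  · have h3 := h1 α h2
    have h4 : α = 0 := by
      ext i
      have h5 := Finset.single_le_sum (f := fun i : Fin r => ((i : ℕ) + 1) * α i)
        (fun _ _ => Nat.zero_le _) (Finset.mem_univ i)
      have h6 : ((i : ℕ) + 1) * α i = 0 := by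
        have : ((i : ℕ) + 1) * α i ≤ 0 := h5.trans h3
        omega
      rw [Nat.mul_eq_zero] at h6
      rw [Finsupp.coe_zero, Pi.zero_apply]
      omega
    rw [if_pos h4.symm, h4]
  · rw [MvPolynomial.notMem_support_iff.1 h2]
    split_ifs with h3
    · rw [h3]
      exact (MvPolynomial.notMem_support_iff.1 h2).symm
    · rfl

end Pool.Agent.K1H81.HV
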