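import Pool.Agent.K1H81.HV.Pts

/-!
# The numbers of closed points
-/

set_option autoImplicit false
set_option linter.unusedSectionVars false

namespace Pool.Agent.K1H81.HV

open Finset hiding val
open Pool.Agent.Y722.HS Pool.Agent.X280.HG

section
variable {κ : Type*} [Field κ] {n d : ℕ}

theorem exists_Nm (x : Fin (n + 1) → κ) (hx : x ≠ 0) :
    ∃ (u : κˣ) (v : Fin (n + 1) → κ), Nm v ∧ x = (u : κ) • v := by
  classical
  obtain ⟨k, hk⟩ := Function.ne_iff.mp hx
  have hne : (univ.filter fun i => x i ≠ 0).Nonempty :=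
    ⟨k, Finset.mem_filter.2 ⟨Finset.mem_univ _, hk⟩⟩
  obtain ⟨i, hi⟩ : ∃ i, (univ.filter fun i => x i ≠ 0).min' hne = i := ⟨_, rfl⟩
  have h1 : x i ≠ 0 := by
    have := Finset.min'_mem _ hne
    rw [hi] at this
    exact (Finset.mem_filter.1 this).2
  have h2 : ∀ j, j < i → x j = 0 := by
    intro j hj
    by_contra hcon
    have := Finset.min'_le (univ.filter fun i => x i ≠ 0) j
      (Finset.mem_filter.2 ⟨Finset.mem_univ _, hcon⟩)
    rw [hi] at this
    exact absurd hj (not_lt.2 this)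
  refine ⟨Units.mk0 (x i) h1, (x i)⁻¹ • x, ⟨i, ?_, fun j hj => ?_⟩, ?_⟩
  · rw [Pi.smul_apply, smul_eq_mul, inv_mul_cancel₀ h1]
  · rw [Pi.smul_apply, h2 j hj, smul_zero]
  · rw [Units.val_mk0, smul_smul, mul_inv_cancel₀ h1, one_smul]

theorem Nm_ne_zero {v : Fin (n + 1) → κ} (hv : Nm v) : v ≠ 0 := by
  obtain ⟨i, h1, -⟩ := hv
  intro h
  rw [h, Pi.zero_apply] at h1
  exact zero_ne_one h1

theorem val_smulK (c : Mon n d → κ) (t : κ) (x : Fin (n + 1) → κ) :
    val c (t • x) = t ^ d * val c x := by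
  unfold val
  rw [Finset.mul_sum]
  refine Finset.sum_congr rfl fun m _ => ?_
  have : mev (t • x) m = t ^ d * mev x m := by
    unfold mev
    simp only [Pi.smul_apply, smul_eq_mul, mul_pow]
    rw [Finset.prod_mul_distrib, Finset.prod_pow_eq_pow_sum, m.2]
  rw [this]
  ring

theorem card_smul (c : Mon n d → κ) [Fintype κ] :
    Nat.card {x : Fin (n + 1) → κ // x ≠ 0 ∧ val c x = 0} =
      (Fintype.card κ - 1) * Nat.card {v : Fin (n + 1) → κ // Nm v ∧ val c v = 0} := by
  classical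
  have h1 : Nat.card κˣ = Fintype.card κ - 1 := by
    rw [Nat.card_eq_fintype_card, Fintype.card_units]
  rw [← h1, ← Nat.card_prod]
  symm
  refine Nat.card_congr (Equiv.ofBijective (fun uv : κˣ × {v : Fin (n + 1) → κ // Nm v ∧ val c v = 0}
    => (⟨(uv.1 : κ) • uv.2.1, smul_ne_zero uv.1.ne_zero (Nm_ne_zero uv.2.2.1), by
      rw [val_smulK, uv.2.2.2, mul_zero]⟩ : {x : Fin (n + 1) → κ // x ≠ 0 ∧ val c x = 0})) ⟨?_, ?_⟩)
  · rintro ⟨u, v, hv1, hv2⟩ ⟨u', v', hv1', hv2'⟩ h
    have h2 : (u : κ) • v = (u' : κ) • v' := congrArg Subtype.val h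
    have h3 : v = ((u : κ)⁻¹ * u') • v' := by
      rw [mul_smul, ← h2, smul_smul, inv_mul_cancel₀ u.ne_zero, one_smul]
    have h4 := Nm_smul hv1' (h3 ▸ hv1)
    have h5 : (u : κ) = u' := by
      have := congrArg (fun z => (u : κ) * z) h4
      simp only [mul_one] at this
      rw [← mul_assoc, mul_inv_cancel₀ u.ne_zero, one_mul] at this
      exact this.symm
    have h6 : v = v' := by rw [h3, h4, one_smul]
    have h7 : u = u' := Units.ext h5
    subst h6 h7
    rfl
  · rintro ⟨x, hx, hx2⟩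
    obtain ⟨u, v, hv, hxv⟩ := exists_Nm x hx
    refine ⟨(u, ⟨v, hv, ?_⟩), Subtype.ext hxv.symm⟩
    rw [hxv, val_smulK] at hx2
    exact (mul_eq_zero.1 hx2).resolve_left (pow_ne_zero _ u.ne_zero)

end

section
variable {p : ℕ} [hp : Fact p.Prime] {n d : ℕ}

theorem fin_fix (n k : ℕ) : {v : NV p n | 0 < k ∧ Fr^[k] v = v}.Finite := by
  classical
  rcases Nat.eq_zero_or_pos k with rfl | hk
  · refine Set.finite_empty.subset ?_
    rintro v ⟨h, -⟩
    exact absurd h (lt_irrefl _)
  have hq : 1 < p ^ k := Nat.one_lt_pow hk.ne' hp.out.one_lt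
  have h1 : {a : KK p | a ^ p ^ k = a}.Finite := by
    refine ((Polynomial.X ^ (p ^ k) - Polynomial.X : Polynomial (KK p)).roots.toFinset.finite_toSet).subset ?_
    intro a ha
    rw [Finset.mem_coe, Multiset.mem_toFinset,
      Polynomial.mem_roots (FiniteField.X_pow_card_sub_X_ne_zero _ hq), Polynomial.IsRoot.def]
    have ha' : a ^ p ^ k = a := ha
    simp [ha']
  have h2 : {v : Fin (n + 1) → KK p | ∀ i, v i ∈ {a : KK p | a ^ p ^ k = a}}.Finite :=
    Set.Finite.pi' fun _ => h1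
  refine (h2.preimage (f := (Subtype.val : NV p n → _)) Subtype.val_injective.injOn).subset ?_
  rintro v ⟨-, hv⟩ i
  have := congrFun (congrArg Subtype.val hv) i
  rw [Fr_iter] at this
  exact this

/-- The points over the field with `p ^ k` elements. -/
noncomputable def PF (p n : ℕ) [Fact p.Prime] (k : ℕ) : Finset (NV p n) := (fin_fix n k).toFinset

theorem mem_PF {k : ℕ} {v : NV p n} : v ∈ PF p n k ↔ 0 < k ∧ deg v ∣ k := by
  unfold PF
  rw [Set.Finite.mem_toFinset, Set.mem_ofPred_eq, iter_eq_iff]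

open Classical in
/-- The points of degree `j`. -/
noncomputable def DD (p n : ℕ) [Fact p.Prime] (j : ℕ) : Finset (NV p n) :=
  (PF p n j).filter fun v => deg v = j

theorem mem_DD {j : ℕ} {v : NV p n} : v ∈ DD p n j ↔ deg v = j := by
  unfold DD
  rw [Finset.mem_filter, mem_PF]
  constructor
  · exact fun h => h.2
  · intro h
    refine ⟨⟨h ▸ deg_pos v, h ▸ dvd_rfl⟩, h⟩

theorem sum_PF (k : ℕ) (hk : 0 < k) (f : NV p n → ℝ) :
    ∑ v ∈ PF p n k, f v = ∑ j ∈ k.divisors, ∑ v ∈ DD p n j, f v := by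
  classical
  have hmap : ∀ v ∈ PF p n k, deg v ∈ k.divisors := fun v hv =>
    Nat.mem_divisors.2 ⟨(mem_PF.1 hv).2, hk.ne'⟩
  rw [← Finset.sum_fiberwise_of_maps_to hmap]
  refine Finset.sum_congr rfl fun j hj => Finset.sum_congr ?_ fun _ _ => rfl
  ext v
  rw [Finset.mem_filter, mem_PF, mem_DD]
  exact ⟨fun h => h.2, fun h => ⟨⟨hk, h ▸ (Nat.mem_divisors.1 hj).1⟩, h⟩⟩

/-- A choice of one point in every orbit. -/
theorem exists_rep : ∃ r : NV p n → NV p n, (∀ v, ∃ i, Fr^[i] v = r v) ∧ ∀ v i, r (Fr^[i] v) = r v := by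
  classical
  let s : Setoid (NV p n) :=
    { r := fun v w => ∃ i, Fr^[i] v = w
      iseqv :=
        { refl := fun v => ⟨0, rfl⟩
          symm := fun {v w} h => by
            obtain ⟨i, hi⟩ := h
            have h1 : Fr^[deg v * i] v = v := (iter_eq_iff v _).2 (dvd_mul_right _ _)
            have h2 : i ≤ deg v * i := Nat.le_mul_of_pos_left i (deg_pos v)
            refine ⟨deg v * i - i, ?_⟩
            rw [← hi, ← Function.iterate_add_apply, Nat.sub_add_cancel h2, h1]
          trans := fun {u v w} h h' => by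
            obtain ⟨i, hi⟩ := h
            obtain ⟨j, hj⟩ := h'
            exact ⟨j + i, by rw [Function.iterate_add_apply, hi, hj]⟩ } }
  refine ⟨fun v => (Quotient.mk s v).out, fun v => ?_, fun v i => ?_⟩
  · exact s.symm' (Quotient.mk_out (s := s) v)
  · have h1 : Quotient.mk s (Fr^[i] v) = Quotient.mk s v :=
      Quotient.sound (s := s) (s.symm' ⟨i, rfl⟩)
    change (Quotient.mk s (Fr^[i] v)).out = (Quotient.mk s v).out
    rw [h1]

theorem deg_iter (v : NV p n) (i : ℕ) : deg (Fr^[i] v) = deg v := by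
  induction i with
  | zero => rfl
  | succ i ih => rw [Function.iterate_succ_apply', deg_Fr, ih]

theorem inv_iter {f : NV p n → ℝ} (hf : ∀ v, f (Fr v) = f v) (v : NV p n) (i : ℕ) :
    f (Fr^[i] v) = f v := by
  induction i with
  | zero => rfl
  | succ i ih => rw [Function.iterate_succ_apply', hf, ih]

/-- **Representatives of the closed points of degree `j`.** -/
theorem exists_reps (p n : ℕ) [Fact p.Prime] (j : ℕ) : ∃ A : Finset (NV p n), (∀ a ∈ A, deg a = j) ∧
    (∀ a ∈ A, ∀ b ∈ A, ∀ i, Fr^[i] a = b → a = b) ∧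
    ∀ f : NV p n → ℝ, (∀ v, f (Fr v) = f v) → ∑ v ∈ DD p n j, f v = j * ∑ a ∈ A, f a := by
  classical
  obtain ⟨r, hr1, hr2⟩ := exists_rep (p := p) (n := n)
  have hrr : ∀ v, r (r v) = r v := by
    intro v
    obtain ⟨i, hi⟩ := hr1 v
    rw [← hi, hr2, hi]
  have hdr : ∀ v, deg (r v) = deg v := by
    intro v
    obtain ⟨i, hi⟩ := hr1 v
    rw [← hi, deg_iter]
  refine ⟨(DD p n j).image r, fun a ha => ?_, fun a ha b hb i hi => ?_, fun f hf => ?_⟩
  · obtain ⟨v, hv, rfl⟩ := Finset.mem_image.1 ha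
    rw [hdr, mem_DD.1 hv]
  · obtain ⟨v, hv, rfl⟩ := Finset.mem_image.1 ha
    obtain ⟨w, hw, rfl⟩ := Finset.mem_image.1 hb
    rw [← hrr v, ← hrr w, ← hi, hr2]
  · rw [Finset.mul_sum, ← Finset.sum_fiberwise_of_maps_to (s := DD p n j)
      (t := (DD p n j).image r) (g := r) fun v hv => Finset.mem_image_of_mem r hv]
    refine Finset.sum_congr rfl fun a ha => ?_
    have hfa : ∀ v ∈ (DD p n j).filter (fun v => r v = a), f v = f a := by
      intro v hv
      rw [← (Finset.mem_filter.1 hv).2]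
      obtain ⟨i, hi⟩ := hr1 v
      rw [← hi, inv_iter hf]
    rw [Finset.sum_congr rfl hfa, Finset.sum_const, nsmul_eq_mul]
    congr 2
    obtain ⟨w, hw, hwa⟩ := Finset.mem_image.1 ha
    have hda : deg a = j := by rw [← hwa, hdr, mem_DD.1 hw]
    have hra : r a = a := by rw [← hwa, hrr]
    have hset : (DD p n j).filter (fun v => r v = a) = (range j).image fun i => Fr^[i] a := by
      ext v
      rw [Finset.mem_filter, mem_DD, Finset.mem_image]
      constructor
      · rintro ⟨h1, h2⟩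
        obtain ⟨i, hi⟩ := hr1 v
        rw [h2] at hi
        -- `v` is an iterate of `a`
        have h3 : Fr^[deg v * i] v = v := (iter_eq_iff v _).2 (dvd_mul_right _ _)
        have h4 : i ≤ deg v * i := Nat.le_mul_of_pos_left i (deg_pos v)
        have h5 : Fr^[deg v * i - i] a = v := by
          rw [← hi, ← Function.iterate_add_apply, Nat.sub_add_cancel h4, h3]
        refine ⟨(deg v * i - i) % j, Finset.mem_range.2 (Nat.mod_lt _ (hda ▸ deg_pos a)), ?_⟩
        have h7 := Function.iterate_mod_minimalPeriod_eq (f := Fr) (x := a) (n := deg v * i - i)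
        rw [show Function.minimalPeriod Fr a = j from hda] at h7
        rw [h7, h5]
      · rintro ⟨i, hi, rfl⟩
        exact ⟨by rw [deg_iter, hda], by rw [hr2, hra]⟩
    rw [hset, Finset.card_image_of_injOn, Finset.card_range]
    intro i hi l hl hil
    have hi' := Finset.mem_range.1 (Finset.mem_coe.1 hi)
    have hl' := Finset.mem_range.1 (Finset.mem_coe.1 hl)
    have := Function.iterate_injOn_Iio_minimalPeriod (f := Fr) (x := a)
    rw [show Function.minimalPeriod Fr a = j from hda] at this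
    exact this (Set.mem_Iio.2 hi') (Set.mem_Iio.2 hl') hil

theorem ι_ev {κ : Type*} [Field κ] (ι : κ →+* KK p) (χ : ZMod p →+* κ) (c : Mon n d → ZMod p)
    (x : Fin (n + 1) → κ) (v : NV p n) (h : ∀ i, v.1 i = ι (x i)) :
    ev c v = ι (val (fun μ => χ (c μ)) x) := by
  unfold ev val
  rw [map_sum]
  refine Finset.sum_congr rfl fun μ _ => ?_
  rw [map_mul]
  congr 1
  · have h1 : ι.comp χ = algebraMap (ZMod p) (KK p) := Subsingleton.elim _ _
    rw [← h1]
    rfl
  · unfold mev
    rw [map_prod]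
    refine Finset.prod_congr rfl fun i _ => ?_
    rw [h, map_pow]

/-- **The points over a finite field.** -/
theorem card_cone {κ : Type*} [Field κ] [Fintype κ] (k : ℕ) (hk : 0 < k)
    (hq : Fintype.card κ = p ^ k) (ι : κ →+* KK p) (χ : ZMod p →+* κ) (c : Mon n d → ZMod p) :
    Nat.card {x : Fin (n + 1) → κ // x ≠ 0 ∧ val (fun μ => χ (c μ)) x = 0} =
      (p ^ k - 1) * Nat.card {v : NV p n // v ∈ PF p n k ∧ ev c v = 0} := by
  classical
  rw [card_smul, hq]
  congr 1
  have hv : ∀ v : Fin (n + 1) → κ, Nm v → Nm fun i => ι (v i) := by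
    rintro v ⟨i, h1, h2⟩
    exact ⟨i, by simp only [h1, map_one], fun j hj => by simp only [h2 j hj, map_zero]⟩
  refine Nat.card_congr (Equiv.ofBijective
    (fun v : {v : Fin (n + 1) → κ // Nm v ∧ val (fun μ => χ (c μ)) v = 0} =>
      (⟨⟨fun i => ι (v.1 i), hv v.1 v.2.1⟩, ?_, ?_⟩ : {v : NV p n // v ∈ PF p n k ∧ ev c v = 0}))
    ⟨?_, ?_⟩)
  · rw [mem_PF, ← iter_eq_iff]
    refine ⟨hk, NV_ext fun i => ?_⟩
    rw [Fr_iter]
    change ι (v.1 i) ^ p ^ k = ι (v.1 i)
    rw [← map_pow, ← hq, FiniteField.pow_card]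
  · rw [ι_ev ι χ c v.1 _ fun i => rfl, v.2.2, map_zero]
  · intro v w h
    have h1 : ∀ i, ι (v.1 i) = ι (w.1 i) := fun i =>
      congrFun (congrArg (fun z : {v : NV p n // v ∈ PF p n k ∧ ev c v = 0} => z.1.1) h) i
    exact Subtype.ext (funext fun i => ι.injective (h1 i))
  · rintro ⟨w, hw1, hw2⟩
    have h1 : ∀ i, ∃ b, ι b = w.1 i := by
      intro i
      rw [← range_iff ι, hq]
      have h2 := (iter_eq_iff w k).2 (mem_PF.1 hw1).2
      have h3 := congrFun (congrArg Subtype.val h2) i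
      rw [Fr_iter] at h3
      exact h3
    choose x hx using h1
    have h2 : Nm x := by
      obtain ⟨i, h3, h4⟩ := w.2
      refine ⟨i, ι.injective (by rw [hx, h3, map_one]), fun j hj => ι.injective ?_⟩
      rw [hx, h4 j hj, map_zero]
    refine ⟨⟨x, h2, ι.injective ?_⟩, Subtype.ext (NV_ext fun i => hx i)⟩
    rw [map_zero, ← hw2]
    exact (ι_ev ι χ c x w fun i => (hx i).symm).symm

theorem card_fix (k : ℕ) (hk : 0 < k) : ∃ Y : Finset (KK p), (∀ y, y ∈ Y ↔ y ^ p ^ k = y) ∧
    Y.card = p ^ k := by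
  classical
  have hfin : Finite (GaloisField p k) := inferInstance
  let _ := Fintype.ofFinite (GaloisField p k)
  have hq : Fintype.card (GaloisField p k) = p ^ k := by
    rw [← Nat.card_eq_fintype_card]
    exact GaloisField.card p k hk.ne'
  let ι : GaloisField p k →+* KK p := (IsAlgClosed.lift (R := ZMod p)).toRingHom
  refine ⟨univ.image ι, fun y => ?_, ?_⟩
  · rw [Finset.mem_image, ← hq, range_iff ι]
    simp
  · rw [Finset.card_image_of_injective _ ι.injective, Finset.card_univ, hq]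

/-- The number of the points over a finite field. -/
theorem card_PF (n k : ℕ) (hk : 0 < k) :
    ((PF p n k).card : ℝ) = ∑ i ∈ range (n + 1), ((p : ℝ) ^ k) ^ i := by
  classical
  have hfin : Finite (GaloisField p k) := inferInstance
  let _ := Fintype.ofFinite (GaloisField p k)
  have hq : Fintype.card (GaloisField p k) = p ^ k := by
    rw [← Nat.card_eq_fintype_card]
    exact GaloisField.card p k hk.ne'
  let ι : GaloisField p k →+* KK p := (IsAlgClosed.lift (R := ZMod p)).toRingHom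
  have h1 := card_cone (n := n) (d := 1) k hk hq ι (algebraMap (ZMod p) (GaloisField p k))
    (0 : Mon n 1 → ZMod p)
  have h2 : Nat.card {x : Fin (n + 1) → GaloisField p k // x ≠ 0 ∧
      val (fun μ => algebraMap (ZMod p) (GaloisField p k) ((0 : Mon n 1 → ZMod p) μ)) x = 0} =
      p ^ (k * (n + 1)) - 1 := by
    have h3 : Nat.card {x : Fin (n + 1) → GaloisField p k // x ≠ 0 ∧
        val (fun μ => algebraMap (ZMod p) (GaloisField p k) ((0 : Mon n 1 → ZMod p) μ)) x = 0} =
        Nat.card {x : Fin (n + 1) → GaloisField p k // x ≠ 0} := by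
      refine Nat.card_congr (Equiv.subtypeEquivRight fun x => ⟨fun h => h.1, fun h => ⟨h, ?_⟩⟩)
      unfold val
      simp
    rw [h3, Nat.card_eq_fintype_card, Fintype.card_subtype_compl, Fintype.card_subtype_eq,
      Fintype.card_pi, Finset.prod_const, Finset.card_univ, Fintype.card_fin, hq, ← pow_mul]
  have h3 : Nat.card {v : NV p n // v ∈ PF p n k ∧ ev (0 : Mon n 1 → ZMod p) v = 0} =
      (PF p n k).card := by
    rw [← Nat.card_eq_finsetCard (PF p n k)]
    refine Nat.card_congr (Equiv.subtypeEquivRight fun x => ⟨fun h => h.1, fun h => ⟨h, ?_⟩⟩)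
    unfold ev val
    simp
  rw [h2, h3] at h1
  have hp1 : (1 : ℝ) < p := by exact_mod_cast hp.out.one_lt
  have hpk : (1 : ℝ) < (p : ℝ) ^ k := one_lt_pow₀ hp1 hk.ne'
  have h4 : (((p ^ (k * (n + 1)) - 1 : ℕ)) : ℝ) = (((p ^ k - 1) * (PF p n k).card : ℕ) : ℝ) := by
    rw [h1]
  rw [Nat.cast_mul, Nat.cast_sub (Nat.one_le_pow _ _ hp.out.pos),
    Nat.cast_sub (Nat.one_le_pow _ _ hp.out.pos)] at h4
  push_cast at h4
  rw [geom_sum_eq hpk.ne', eq_div_iff (by linarith : (p : ℝ) ^ k - 1 ≠ 0), ← pow_mul, mul_comm, ← h4]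

end

end Pool.Agent.K1H81.HV
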