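import Pool.Agent.Y722.HS.Form

/-!
# Traces of Frobenius of hypersurfaces of even dimension, and the limit law: definitions

`Mon n d` is the set of the monomials of degree `d` in the variables `x_0, …, x_n`, and `form c` the form
with the coefficients `c`; `IsSmooth F` says that the hypersurface `F = 0` over an algebraically closed
field is smooth.
-/

set_option autoImplicit false

namespace Pool.Agent.K1H81.HV

open Finset MeasureTheory ProbabilityTheory
open Pool.Agent.Y722.HS (Mon form IsSmooth)

/-- The number of the points of the hypersurface `∑ c_μ x^μ = 0` in the projective space with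
coordinates in the field with `p ^ k` elements, for `p` prime: the number of the nonzero vectors at
which the form vanishes divided by `p ^ k - 1`. -/
noncomputable def numPoints {n d : ℕ} (c : Mon n d → ℤ) (p k : ℕ) : ℝ :=
  if h : p.Prime then
    haveI : Fact p.Prime := ⟨h⟩
    (Nat.card {x : Fin (n + 1) → GaloisField p k // x ≠ 0 ∧
      MvPolynomial.eval x (form fun μ => (c μ : GaloisField p k)) = 0} : ℝ) / ((p : ℝ) ^ k - 1)
  else 0

/-- The trace of the `k`-th power of Frobenius on the primitive part of `H^{2m}(X)(m)`, `X` the
hypersurface in `ℙ^{2m+1}`. -/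
noncomputable def trace {m d : ℕ} (c : Mon (2 * m + 1) d → ℤ) (p k : ℕ) : ℝ :=
  (numPoints c p k - ∑ i ∈ range (2 * m + 1), ((p : ℝ) ^ k) ^ i) / ((p : ℝ) ^ k) ^ m

/-- The hypersurface `∑ c_μ x^μ = 0` has good reduction at the prime `p`: its reduction is smooth. -/
def GoodReduction {n d : ℕ} (c : Mon n d → ℤ) (p : ℕ) : Prop :=
  ∃ h : p.Prime, haveI : Fact p.Prime := ⟨h⟩
    IsSmooth (form fun μ => (c μ : AlgebraicClosure (ZMod p)))

/-- The law of independent normal variables `Z_1, …, Z_r`, where `Z_k` has the variance `k` and the mean
value `1` if `k` is even and `0` if `k` is odd.  This is the limit for `N → ∞` of the joint law of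
`tr g, tr g², …, tr g^r` for a random element `g` of the orthogonal group `O(N)`. -/
noncomputable def limitLaw (r : ℕ) : Measure (Fin r → ℝ) :=
  Measure.pi fun k => gaussianReal (if Even ((k : ℕ) + 1) then 1 else 0) (((k : ℕ) + 1 : ℕ) : NNReal)

end Pool.Agent.K1H81.HV
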