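import Pool.Agent.K1H81.HV.Law
import Pool.Agent.Y722.HS.Bad

/-!
# The primes of good reduction
-/

set_option autoImplicit false
set_option linter.unusedSectionVars false

namespace Pool.Agent.K1H81.HV

open Finset hiding val
open MeasureTheory ProbabilityTheory
open Pool.Agent.Y722.HS Pool.Agent.X280.HG Pool.Agent.X280.BP Pool.Agent.X280.UC

theorem isBad_of {n d : ℕ} (hd : 1 ≤ d) (c : Mon n d → ℤ) (p : ℕ) [hp : Fact p.Prime]
    (h : ¬ GoodReduction c p) : IsBad p (red p c) := by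
  by_contra hcon
  apply h
  refine ⟨hp.out, ?_⟩
  have h1 := isSmooth_of_not_isBad p hd (red p c) hcon
  have h2 : MvPolynomial.map (algebraMap (ZMod p) (AlgebraicClosure (ZMod p))) (form (red p c)) =
      form (fun μ => (c μ : AlgebraicClosure (ZMod p))) := by
    have h3 : ∀ μ, algebraMap (ZMod p) (AlgebraicClosure (ZMod p)) (red p c μ) =
        (c μ : AlgebraicClosure (ZMod p)) := by
      intro μ
      unfold red
      rw [map_intCast]
    simp only [form, map_sum, map_prod, map_mul, MvPolynomial.map_C, map_pow, MvPolynomial.map_X, h3]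
  rwa [h2] at h1

open Classical in
theorem EM_bad (n d : ℕ) (hd : 1 ≤ d) (p : ℕ) [hp : Fact p.Prime] :
    EM p (fun c : Mon n d → ZMod p => if IsBad p c then (1 : ℝ) else 0) ≤
      ((Delta n d).totalDegree + d : ℝ) / p := by
  have hp0 : (0 : ℝ) < p := by exact_mod_cast hp.out.pos
  by_cases hpd : p ∣ d
  · have h1 : EM p (fun c : Mon n d → ZMod p => if IsBad p c then (1 : ℝ) else 0) ≤ 1 := by
      have h2 := EM_monoV p (fun c : Mon n d → ZMod p => if IsBad p c then (1 : ℝ) else 0)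
        (fun _ => 1) (fun c => by split_ifs <;> norm_num)
      rwa [EM_const'] at h2
    refine h1.trans ?_
    rw [le_div_iff₀ hp0, one_mul]
    have h3 : (p : ℝ) ≤ d := by exact_mod_cast Nat.le_of_dvd (by omega) hpd
    have h4 : (0 : ℝ) ≤ (Delta n d).totalDegree := Nat.cast_nonneg _
    linarith
  · have h1 := card_bad n d p hpd
    have h2 : EM p (fun c : Mon n d → ZMod p => if IsBad p c then (1 : ℝ) else 0) =
        ((Nat.card {c : Mon n d → ZMod p // IsBad p c} : ℕ) : ℝ) /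
          (p : ℝ) ^ Fintype.card (Mon n d) := by
      have h3 : Nat.card {c : Mon n d → ZMod p // IsBad p c} =
          (univ.filter fun c : Mon n d → ZMod p => IsBad p c).card := by
        rw [Nat.card_eq_fintype_card, Fintype.card_subtype]
      unfold EM
      rw [Finset.sum_boole, h3]
    rw [h2, div_le_div_iff₀ (by positivity) hp0]
    refine h1.trans (mul_le_mul_of_nonneg_right ?_ (by positivity))
    have : (0 : ℝ) ≤ d := Nat.cast_nonneg _
    linarith

theorem ptw {x μ A b : ℝ} (hA : 0 < A) (hb : b = 0 ∨ b = 1) :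
    |x - μ| * b ≤ 1 / A ^ 3 * (8 * x ^ 4 + 8 * μ ^ 4) + A * b := by
  rcases hb with rfl | rfl
  · rw [mul_zero, mul_zero, add_zero]
    positivity
  · rw [mul_one, mul_one]
    have h5 : (x - μ) ^ 2 ≤ 2 * (x ^ 2 + μ ^ 2) := by nlinarith [sq_nonneg (x + μ)]
    have h6 := pow_le_pow_left₀ (sq_nonneg _) h5 2
    have h7 : (x - μ) ^ 4 ≤ 8 * x ^ 4 + 8 * μ ^ 4 := by
      calc (x - μ) ^ 4 = ((x - μ) ^ 2) ^ 2 := by ring
        _ ≤ (2 * (x ^ 2 + μ ^ 2)) ^ 2 := h6
        _ ≤ 8 * x ^ 4 + 8 * μ ^ 4 := by nlinarith [sq_nonneg (x ^ 2 - μ ^ 2)]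
    have h8 : |x - μ| ≤ 1 / A ^ 3 * (x - μ) ^ 4 + A := by
      rcases le_or_gt |x - μ| A with h9 | h9
      · have : 0 ≤ 1 / A ^ 3 * (x - μ) ^ 4 := by positivity
        linarith
      · have h10 : (x - μ) ^ 4 = |x - μ| ^ 3 * |x - μ| := by
          rw [← pow_succ, Even.pow_abs (by decide)]
        have h11 : |x - μ| ≤ 1 / A ^ 3 * (x - μ) ^ 4 := by
          rw [h10, one_div, inv_mul_eq_div, le_div_iff₀ (by positivity), mul_comm]
          gcongr
        linarith
    refine h8.trans ?_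
    gcongr

theorem gauss_cdf (u η : ℝ) (hη : 0 ≤ η) :
    (gaussianReal 0 1).real (Set.Iic (u + η)) ≤ (gaussianReal 0 1).real (Set.Iic u) + η := by
  have h1 : Set.Iic (u + η) = Set.Iic u ∪ Set.Ioc u (u + η) := by
    rw [Set.Iic_union_Ioc_eq_Iic (by linarith)]
  have h2 : (gaussianReal 0 1).real (Set.Ioc u (u + η)) ≤ η := by
    have h3 : gaussianReal 0 1 (Set.Ioc u (u + η)) ≤ ENNReal.ofReal η := by
      rw [gaussianReal_apply 0 one_ne_zero]
      calc ∫⁻ x in Set.Ioc u (u + η), gaussianPDF 0 1 x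
          ≤ ∫⁻ _ in Set.Ioc u (u + η), 1 := by
            refine lintegral_mono fun x => ?_
            rw [gaussianPDF, ← ENNReal.ofReal_one]
            refine ENNReal.ofReal_le_ofReal ?_
            unfold gaussianPDFReal
            have h4 : (√(2 * Real.pi * ((1 : NNReal) : ℝ)))⁻¹ ≤ 1 := by
              apply inv_le_one_of_one_le₀
              rw [Real.one_le_sqrt]
              have := Real.two_le_pi
              push_cast
              linarith
            have h5 : Real.exp (-(x - 0) ^ 2 / (2 * ((1 : NNReal) : ℝ))) ≤ 1 := by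
              rw [Real.exp_le_one_iff]
              push_cast
              have := sq_nonneg (x - 0)
              linarith
            calc _ ≤ (1 : ℝ) * 1 := mul_le_mul h4 h5 (Real.exp_nonneg _) zero_le_one
              _ = 1 := one_mul 1
        _ = ENNReal.ofReal η := by
            rw [setLIntegral_one, Real.volume_Ioc, add_sub_cancel_left]
    have h4 := ENNReal.toReal_mono ENNReal.ofReal_ne_top h3
    rwa [ENNReal.toReal_ofReal hη] at h4
  rw [h1]
  exact (measureReal_union_le _ _).trans (add_le_add le_rfl h2)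

open Classical in
theorem slutsky {ι : Type} [Fintype ι] [DecidableEq ι] (H : ℕ) (S S' : (ι → ℤ) → ℝ) (u η σ : ℝ)
    (hη0 : 0 < η) (hσ0 : 0 < σ) (h : EB H (fun c => 1 / (η * σ) * |S c - S' c|) ≤ η) :
    EB H (fun c => if S' c ≤ u * σ then (1 : ℝ) else 0) ≤
      EB H (fun c => if S c ≤ (u + η) * σ then (1 : ℝ) else 0) + η ∧
    EB H (fun c => if S c ≤ (u - η) * σ then (1 : ℝ) else 0) ≤
      EB H (fun c => if S' c ≤ u * σ then (1 : ℝ) else 0) + η := by
  have hadd : ∀ f g : (ι → ℤ) → ℝ, EB H (fun c => f c + g c) = EB H f + EB H g := by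
    intro f g
    unfold EB
    rw [Finset.sum_add_distrib, add_div]
  constructor
  · have h1 : EB H (fun c => if S' c ≤ u * σ then (1 : ℝ) else 0) ≤
        EB H (fun c => (if S c ≤ (u + η) * σ then (1 : ℝ) else 0) +
          1 / (η * σ) * |S c - S' c|) := by
      refine EB_mono H _ _ fun c => ?_
      have h2 : 0 ≤ 1 / (η * σ) * |S c - S' c| := by positivity
      by_cases h3 : S' c ≤ u * σ
      · rw [if_pos h3]
        by_cases h4 : S c ≤ (u + η) * σ
        · rw [if_pos h4]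
          linarith
        · rw [if_neg h4, zero_add, one_div, inv_mul_eq_div, le_div_iff₀ (by positivity), one_mul]
          push Not at h4
          have := le_abs_self (S c - S' c)
          nlinarith
      · rw [if_neg h3]
        have : (0 : ℝ) ≤ if S c ≤ (u + η) * σ then (1 : ℝ) else 0 := by split_ifs <;> norm_num
        linarith
    refine h1.trans ?_
    rw [hadd]
    linarith
  · have h1 : EB H (fun c => if S c ≤ (u - η) * σ then (1 : ℝ) else 0) ≤
        EB H (fun c => (if S' c ≤ u * σ then (1 : ℝ) else 0) +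
          1 / (η * σ) * |S c - S' c|) := by
      refine EB_mono H _ _ fun c => ?_
      have h2 : 0 ≤ 1 / (η * σ) * |S c - S' c| := by positivity
      by_cases h3 : S c ≤ (u - η) * σ
      · rw [if_pos h3]
        by_cases h4 : S' c ≤ u * σ
        · rw [if_pos h4]
          linarith
        · rw [if_neg h4, zero_add, one_div, inv_mul_eq_div, le_div_iff₀ (by positivity), one_mul]
          push Not at h4
          have := neg_abs_le (S c - S' c)
          nlinarith
      · rw [if_neg h3]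
        have : (0 : ℝ) ≤ if S' c ≤ u * σ then (1 : ℝ) else 0 := by split_ifs <;> norm_num
        linarith
    refine h1.trans ?_
    rw [hadd]
    linarith

open Classical in
/-- **The normal law for the primes of good reduction.** -/
theorem law_good {r : ℕ} (φ : MvPolynomial (Fin r) ℝ) (hφ : ∀ a, φ ≠ MvPolynomial.C a) (m d : ℕ)
    (hm : 1 ≤ m) (hd1 : 1 ≤ d)
    (hd : 4 * (φ.weightedTotalDegree fun i : Fin r => (i : ℕ) + 1) ≤ d + 1) (δ : ℝ)
    (hδ : 0 < δ) (u ε : ℝ) (hε : 0 < ε) :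
    ∃ K : ℕ, ∀ (P : Finset ℕ) (w : ℕ → ℝ) (y H : ℕ), (∀ p ∈ P, p.Prime ∧ p ≤ y) →
      (∀ p ∈ P, |w p| ≤ 1) → δ * P.card ≤ ∑ p ∈ P, w p ^ 2 → K ≤ P.card → y ^ K ≤ H →
      |({c : Mon (2 * m + 1) d → ℤ | (∀ μ, |c μ| ≤ H) ∧
        ∑ p ∈ P with GoodReduction c p,
          w p * (MvPolynomial.eval (fun k : Fin r => trace c p ((k : ℕ) + 1)) φ - mean φ) ≤
          u * √((mean (φ ^ 2) - mean φ ^ 2) * ∑ p ∈ P, w p ^ 2)}.ncard : ℝ) /
        (2 * H + 1 : ℝ) ^ Fintype.card (Mon (2 * m + 1) d) -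
          (gaussianReal 0 1).real (Set.Iic u)| ≤ ε := by
  obtain ⟨C, hC⟩ := ld φ _ (WD_total φ)
  have hLD := hC m d hm hd
  have hC0 := hLD.C0
  have hv := var_pos φ hφ
  obtain ⟨η, hη⟩ : ∃ η : ℝ, ε / 3 = η := ⟨_, rfl⟩
  have hη0 : 0 < η := by rw [← hη]; positivity
  obtain ⟨K1, hK1⟩ := law_mv φ hφ m d hm hd δ hδ (u + η) η hη0
  obtain ⟨K2, hK2⟩ := law_mv φ hφ m d hm hd δ hδ (u - η) η hη0
  obtain ⟨v, hvd⟩ : ∃ v : ℝ, mean (φ ^ 2) - mean φ ^ 2 = v := ⟨_, rfl⟩
  obtain ⟨μ, hμ⟩ : ∃ μ : ℝ, mean φ = μ := ⟨_, rfl⟩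
  simp only [hvd] at hK1 hK2 hv
  simp only [hμ] at hK1 hK2 hLD
  rw [hvd, hμ]
  obtain ⟨κ, hκ⟩ : ∃ κ : ℝ, κ = √(v * δ) := ⟨_, rfl⟩
  have hκ0 : 0 < κ := by rw [hκ]; exact Real.sqrt_pos.2 (by positivity)
  have hκ2 : κ ^ 2 = v * δ := by rw [hκ]; exact Real.sq_sqrt (by positivity)
  obtain ⟨D, hD⟩ : ∃ D : ℝ, ((Delta (2 * m + 1) d).totalDegree + d : ℝ) = D := ⟨_, rfl⟩
  have hD0 : 0 ≤ D := by rw [← hD]; positivity
  obtain ⟨C4, hC4⟩ : ∃ C4 : ℝ, 8 * C + 8 * μ ^ 4 = C4 := ⟨_, rfl⟩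
  have hC40 : 0 ≤ C4 := by rw [← hC4]; positivity
  obtain ⟨n, hn⟩ : ∃ n, Fintype.card (Mon (2 * m + 1) d) = n := ⟨_, rfl⟩
  rw [hn]
  simp only [hn] at hK1 hK2
  obtain ⟨M, hM⟩ : ∃ M : ℝ, 2 ^ n * (C4 + 10 * D) = M := ⟨_, rfl⟩
  have hM0 : 0 ≤ M := by rw [← hM]; positivity
  obtain ⟨K3, hK3⟩ := exists_nat_ge ((1 + M / (η * η * κ)) ^ 8)
  refine ⟨max (max K1 K2) (max K3 1), fun P w y H hP hw hvar hcard hH => ?_⟩
  have hc1 : 1 ≤ P.card := (le_max_right _ _).trans ((le_max_right _ _).trans hcard)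
  have hc3 : K3 ≤ P.card := (le_max_left _ _).trans ((le_max_right _ _).trans hcard)
  have hy1 : 1 ≤ y := by
    obtain ⟨p, hp⟩ : P.Nonempty := by rw [← Finset.card_pos]; omega
    have h1 := (hP p hp).2
    have h2 := (hP p hp).1.pos
    omega
  have hH1 : y ^ K1 ≤ H := (Nat.pow_le_pow_right hy1
    ((le_max_left _ _).trans (le_max_left _ _))).trans hH
  have hH2 : y ^ K2 ≤ H := (Nat.pow_le_pow_right hy1
    ((le_max_right _ _).trans (le_max_left _ _))).trans hH
  have hyH : y ≤ H := by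
    refine le_trans ?_ hH
    exact Nat.le_self_pow (by
      have := le_max_right K3 1
      have := le_max_right (max K1 K2) (max K3 1)
      omega) y
  have k1 := hK1 P w y H hP hw hvar ((le_max_left _ _).trans ((le_max_left _ _).trans hcard)) hH1
  have k2 := hK2 P w y H hP hw hvar ((le_max_right _ _).trans ((le_max_left _ _).trans hcard)) hH2
  -- the normalisation
  obtain ⟨N, hN⟩ : ∃ N : ℝ, (P.card : ℝ) = N := ⟨_, rfl⟩
  rw [hN] at hvar
  have hN0 : 0 ≤ N := by rw [← hN]; exact Nat.cast_nonneg _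
  obtain ⟨a, ha0, ha8⟩ := exists_root hN0
  have haM : 1 + M / (η * η * κ) ≤ a := by
    have h1 : (1 + M / (η * η * κ)) ^ 8 ≤ a ^ 8 := by
      rw [ha8, ← hN]
      exact hK3.trans (by exact_mod_cast hc3)
    exact le_of_pow_le_pow_left₀ (by norm_num) ha0 h1
  have hMq : 0 ≤ M / (η * η * κ) := by positivity
  have ha1 : 1 ≤ a := by linarith
  have haM' : M ≤ η * η * κ * a := by
    have h1 : M / (η * η * κ) ≤ a := by linarith
    rw [div_le_iff₀ (by positivity)] at h1
    linarith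
  obtain ⟨W, hW⟩ : ∃ W : ℝ, ∑ p ∈ P, w p ^ 2 = W := ⟨_, rfl⟩
  rw [hW] at hvar ⊢
  rw [hW] at k1 k2
  have hap : 0 < a := by linarith
  have hW0 : 0 < W := lt_of_lt_of_le (by rw [← ha8]; positivity) hvar
  obtain ⟨σ, hσ⟩ : ∃ σ : ℝ, √(v * W) = σ := ⟨_, rfl⟩
  rw [hσ] at k1 k2 ⊢
  have hσ0 : 0 < σ := by rw [← hσ]; exact Real.sqrt_pos.2 (by positivity)
  have hσ2 : σ ^ 2 = v * W := by rw [← hσ]; exact Real.sq_sqrt (by positivity)
  have hσa : κ * a ^ 4 ≤ σ := by
    refine le_of_pow_le_pow_left₀ (n := 2) (by norm_num) hσ0.le ?_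
    rw [mul_pow, hκ2, hσ2, ← pow_mul, ha8, mul_assoc]
    exact mul_le_mul_of_nonneg_left hvar hv.le
  -- the bad primes
  let S : (Mon (2 * m + 1) d → ℤ) → ℝ := fun c => ∑ p ∈ P,
    w p * (MvPolynomial.eval (fun k : Fin r => trace c p ((k : ℕ) + 1)) φ - μ)
  let S' : (Mon (2 * m + 1) d → ℤ) → ℝ := fun c => ∑ p ∈ P with GoodReduction c p,
    w p * (MvPolynomial.eval (fun k : Fin r => trace c p ((k : ℕ) + 1)) φ - μ)
  let B : ∀ p : ℕ, (Mon (2 * m + 1) d → ZMod p) → ℝ := fun p c =>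
    |UU φ m d p c - μ| * (if IsBad p c then 1 else 0)
  have hdiff : ∀ c, |S c - S' c| ≤ ∑ p ∈ P, B p (red p c) := by
    intro c
    have h1 : S c - S' c = ∑ p ∈ P with ¬ GoodReduction c p,
        w p * (MvPolynomial.eval (fun k : Fin r => trace c p ((k : ℕ) + 1)) φ - μ) := by
      change ∑ p ∈ P, _ - ∑ p ∈ P with GoodReduction c p, _ = _
      rw [← Finset.sum_filter_add_sum_filter_not P (fun p => GoodReduction c p)]
      ring
    rw [h1]
    refine (Finset.abs_sum_le_sum_abs _ _).trans ?_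
    rw [Finset.sum_filter]
    refine Finset.sum_le_sum fun p hp => ?_
    have : Fact p.Prime := ⟨(hP p hp).1⟩
    have hB0 : 0 ≤ B p (red p c) := by
      change 0 ≤ |UU φ m d p (red p c) - μ| * _
      positivity
    by_cases h2 : GoodReduction c p
    · rw [if_neg (not_not.2 h2)]
      exact hB0
    · rw [if_pos h2]
      change _ ≤ |UU φ m d p (red p c) - μ| * _
      rw [if_pos (isBad_of hd1 c p h2), mul_one, UU_eq, abs_mul]
      simp only [trace_eq c p _ (Nat.succ_pos _)]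
      calc |w p| * _ ≤ 1 * _ := mul_le_mul_of_nonneg_right (hw p hp) (abs_nonneg _)
        _ = _ := one_mul _
  have hEB : EB H (fun c => |S c - S' c|) ≤ M * a ^ 3 := by
    refine (EB_mono H _ _ hdiff).trans ?_
    rw [EB_sum]
    have h5 : ∀ p ∈ P, EB H (fun c => B p (red p c)) ≤
        2 ^ n * (C4 / (a ^ 2) ^ 3 + a ^ 2 * (D / p)) := by
      intro p hp
      have hpf : Fact p.Prime := ⟨(hP p hp).1⟩
      have hpH : p ≤ 2 * H + 1 := by
        have := (hP p hp).2
        omega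
      refine (EB_le H p hpH (fun c => B p c) (fun c => by
        change 0 ≤ |UU φ m d p c - μ| * _
        positivity)).trans ?_
      rw [hn]
      refine mul_le_mul_of_nonneg_left ?_ (by positivity)
      have h6 : EM p (fun c => B p c) ≤ EM p (fun c : Mon (2 * m + 1) d → ZMod p =>
          1 / (a ^ 2) ^ 3 * (8 * UU φ m d p c ^ 4 + 8 * μ ^ 4) +
          a ^ 2 * (if IsBad p c then 1 else 0)) := by
        refine EM_monoV p _ _ fun c => ?_
        exact ptw (by positivity) (by split_ifs <;> simp)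
      refine h6.trans ?_
      rw [EM_add', EM_mul', EM_mul', EM_add', EM_mul', EM_const']
      have h7 := hLD.m4 p (hP p hp).1
      have h8 := EM_bad (2 * m + 1) d hd1 p
      rw [hD] at h8
      have h9 : 8 * EM p (fun c => UU φ m d p c ^ 4) + 8 * μ ^ 4 ≤ C4 := by
        rw [← hC4]
        linarith
      calc _ ≤ 1 / (a ^ 2) ^ 3 * C4 + a ^ 2 * (D / p) := by gcongr
        _ = _ := by ring
    refine (Finset.sum_le_sum h5).trans ?_
    rw [← Finset.mul_sum, Finset.sum_add_distrib, Finset.sum_const, nsmul_eq_mul, hN,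
      ← Finset.mul_sum]
    have h6 : ∑ p ∈ P, D / (p : ℝ) ≤ D * (2 + 8 * a) := by
      have h7 : ∑ p ∈ P, D / (p : ℝ) = D * ∑ p ∈ P, (1 : ℝ) / p := by
        rw [Finset.mul_sum]
        exact Finset.sum_congr rfl fun p _ => by ring
      rw [h7]
      refine mul_le_mul_of_nonneg_left ?_ hD0
      refine (sum_inv_le P fun p hp => (hP p hp).1.one_lt.le).trans ?_
      have hlogN : Real.log N ≤ 8 * a := by
        rw [← ha8, Real.log_pow]
        have h1 := Real.log_le_sub_one_of_pos hap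
        push_cast
        linarith
      rw [hN]
      linarith
    have h7 : N * (C4 / (a ^ 2) ^ 3) = C4 * a ^ 2 := by
      rw [← ha8]
      field_simp
    rw [h7, ← hM, mul_assoc (2 ^ n : ℝ)]
    refine mul_le_mul_of_nonneg_left ?_ (by positivity)
    have h8 : a ^ 2 ≤ a ^ 3 := pow_le_pow_right₀ ha1 (by norm_num)
    have h9 : a ^ 2 * (D * (2 + 8 * a)) ≤ 10 * D * a ^ 3 := by
      have h10 : a ^ 2 * (2 + 8 * a) ≤ 10 * a ^ 3 := by nlinarith
      calc a ^ 2 * (D * (2 + 8 * a)) = D * (a ^ 2 * (2 + 8 * a)) := by ring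
        _ ≤ D * (10 * a ^ 3) := by gcongr
        _ = _ := by ring
    calc C4 * a ^ 2 + a ^ 2 * ∑ p ∈ P, D / (p : ℝ) ≤ C4 * a ^ 3 + a ^ 2 * (D * (2 + 8 * a)) := by
          gcongr
      _ ≤ C4 * a ^ 3 + 10 * D * a ^ 3 := by linarith
      _ = _ := by ring
  have hEB' : EB H (fun c => 1 / (η * σ) * |S c - S' c|) ≤ η := by
    rw [EB_mul_left, one_div, inv_mul_eq_div, div_le_iff₀ (by positivity)]
    refine hEB.trans ?_
    calc M * a ^ 3 ≤ (η * η * κ * a) * a ^ 3 := by gcongr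
      _ = η * (η * (κ * a ^ 4)) := by ring
      _ ≤ η * (η * σ) := by gcongr
  -- proportions as averages
  have hpr : ∀ Q : (Mon (2 * m + 1) d → ℤ) → Prop,
      ({c : Mon (2 * m + 1) d → ℤ | (∀ μ, |c μ| ≤ H) ∧ Q c}.ncard : ℝ) / (2 * H + 1 : ℝ) ^ n =
        EB H (fun c => if Q c then 1 else 0) := by
    intro Q
    rw [ncard_box]
    unfold EB
    rw [hn, Finset.sum_boole]
  rw [hpr] at k1 k2 ⊢
  have g1 := gauss_cdf u η hη0.le
  have g2 := gauss_cdf (u - η) η hη0.le
  rw [sub_add_cancel] at g2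
  obtain ⟨c1, c2⟩ := slutsky H S S' u η σ hη0 hσ0 hEB'
  rw [abs_le] at k1 k2 ⊢
  change _ ∧ EB H (fun c => if S' c ≤ u * σ then (1 : ℝ) else 0) - _ ≤ ε
  change -ε ≤ EB H (fun c => if S' c ≤ u * σ then (1 : ℝ) else 0) - _ ∧ _
  change -η ≤ EB H (fun c => if S c ≤ (u + η) * σ then (1 : ℝ) else 0) - _ ∧
    EB H (fun c => if S c ≤ (u + η) * σ then (1 : ℝ) else 0) - _ ≤ η at k1
  change -η ≤ EB H (fun c => if S c ≤ (u - η) * σ then (1 : ℝ) else 0) - _ ∧
    EB H (fun c => if S c ≤ (u - η) * σ then (1 : ℝ) else 0) - _ ≤ η at k2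
  obtain ⟨k11, k12⟩ := k1
  obtain ⟨k21, k22⟩ := k2
  have e3 : ε = 3 * η := by rw [← hη]; ring
  constructor
  · linarith
  · linarith

end Pool.Agent.K1H81.HV
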