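import Pool.Agent.K1H81.HV.Inst

/-!
# The limit law of the traces, and polynomials
-/

set_option autoImplicit false
set_option linter.unusedSectionVars false

namespace Pool.Agent.K1H81.HV

open Finset hiding val
open MeasureTheory ProbabilityTheory
open Pool.Agent.Y722.HS Pool.Agent.X280.HG Pool.Agent.X280.BP Pool.Agent.X280.UC

theorem G1_aux (k a : ℕ) : ∀ b : ℕ,
    Integrable (fun x : ℝ => (√k * x + ev2 k) ^ a * x ^ b) (gaussianReal 0 1) ∧
    ∫ x : ℝ, (√k * x + ev2 k) ^ a * x ^ b ∂(gaussianReal 0 1) = G1 k a b := by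
  induction a with
  | zero =>
    intro b
    simp only [pow_zero, one_mul]
    exact ⟨integrable_pow_gauss b, by rw [gauss_mom, G1]⟩
  | succ a ih =>
    intro b
    have e : (fun x : ℝ => (√k * x + ev2 k) ^ (a + 1) * x ^ b) = fun x =>
        √k * ((√k * x + ev2 k) ^ a * x ^ (b + 1)) + ev2 k * ((√k * x + ev2 k) ^ a * x ^ b) := by
      funext x
      ring
    have h1 := (ih (b + 1)).1.const_mul (√k)
    have h2 := (ih b).1.const_mul (ev2 k)
    refine ⟨?_, ?_⟩
    · rw [e]
      exact h1.add h2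
    · rw [e, integral_add h1 h2, integral_const_mul, integral_const_mul, (ih (b + 1)).2, (ih b).2, G1]

/-- The limit law: the variables `√k g_k + [2 ∣ k]` for independent standard normal variables. -/
noncomputable def vec (r : ℕ) (g : Fin r → ℝ) (i : Fin r) : ℝ :=
  √((i : ℕ) + 1 : ℕ) * g i + ev2 ((i : ℕ) + 1)

/-- The standard normal law in `r` variables. -/
noncomputable def gam (r : ℕ) : Measure (Fin r → ℝ) := Measure.pi fun _ => gaussianReal 0 1

instance (r : ℕ) : IsProbabilityMeasure (gam r) := by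
  unfold gam
  infer_instance

instance (r : ℕ) : (gam r).IsOpenPosMeasure := by
  have h : (gaussianReal 0 1).IsOpenPosMeasure :=
    (gaussianReal_absolutelyContinuous' 0 one_ne_zero).isOpenPosMeasure
  unfold gam
  infer_instance

/-- The mean value of a polynomial. -/
noncomputable def mean {r : ℕ} (φ : MvPolynomial (Fin r) ℝ) : ℝ :=
  ∫ g, MvPolynomial.eval (vec r g) φ ∂(gam r)

/-- The multi-index as a function on the natural numbers. -/
def ext {r : ℕ} (α : Fin r →₀ ℕ) (k : ℕ) : ℕ := if h : k - 1 < r then α ⟨k - 1, h⟩ else 0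

theorem ext_succ {r : ℕ} (α : Fin r →₀ ℕ) (i : Fin r) : ext α ((i : ℕ) + 1) = α i := by
  unfold ext
  rw [dif_pos (show (i : ℕ) + 1 - 1 < r by have := i.2; omega)]
  rfl

theorem prod_Icc_fin {M : Type*} [CommMonoid M] (r : ℕ) (f : ℕ → M) :
    ∏ k ∈ Icc 1 r, f k = ∏ i : Fin r, f ((i : ℕ) + 1) := by
  induction r with
  | zero => simp
  | succ r ih =>
    rw [Finset.prod_Icc_succ_top (by omega), Fin.prod_univ_castSucc, ih]
    rfl

theorem sum_Icc_fin {M : Type*} [AddCommMonoid M] (r : ℕ) (f : ℕ → M) :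
    ∑ k ∈ Icc 1 r, f k = ∑ i : Fin r, f ((i : ℕ) + 1) := by
  induction r with
  | zero => simp
  | succ r ih =>
    rw [Finset.sum_Icc_succ_top (by omega), Fin.sum_univ_castSucc, ih]
    rfl

theorem eval_sum {r : ℕ} (φ : MvPolynomial (Fin r) ℝ) (x : Fin r → ℝ) :
    MvPolynomial.eval x φ = ∑ α ∈ φ.support, φ.coeff α * ∏ i, x i ^ α i :=
  MvPolynomial.eval_eq' x φ

theorem integrable_mono {r : ℕ} (α : Fin r →₀ ℕ) :
    Integrable (fun g : Fin r → ℝ => ∏ i, vec r g i ^ α i) (gam r) := by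
  have h : ∀ i : Fin r, Integrable (fun x : ℝ => (√((i : ℕ) + 1 : ℕ) * x + ev2 ((i : ℕ) + 1)) ^ α i)
      (gaussianReal 0 1) := by
    intro i
    have h1 := (G1_aux ((i : ℕ) + 1) (α i) 0).1
    simpa using h1
  exact Integrable.fintype_prod h

theorem integral_mono {r : ℕ} (α : Fin r →₀ ℕ) :
    ∫ g : Fin r → ℝ, ∏ i, vec r g i ^ α i ∂(gam r) = GG r (ext α) 0 := by
  unfold GG
  rw [prod_Icc_fin]
  have h1 := integral_fintype_prod_eq_prod (𝕜 := ℝ)
    (fun (i : Fin r) (x : ℝ) => (√((i : ℕ) + 1 : ℕ) * x + ev2 ((i : ℕ) + 1)) ^ α i)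
    (μ := fun _ => gaussianReal 0 1)
  refine h1.trans (Finset.prod_congr rfl fun i _ => ?_)
  rw [ext_succ]
  have h2 := (G1_aux ((i : ℕ) + 1) (α i) 0).2
  simpa using h2

theorem integrable_eval {r : ℕ} (φ : MvPolynomial (Fin r) ℝ) :
    Integrable (fun g => MvPolynomial.eval (vec r g) φ) (gam r) := by
  simp only [eval_sum]
  exact integrable_finsetSum _ fun α _ => (integrable_mono α).const_mul _

theorem mean_eq {r : ℕ} (φ : MvPolynomial (Fin r) ℝ) :
    mean φ = ∑ α ∈ φ.support, φ.coeff α * GG r (ext α) 0 := by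
  unfold mean
  simp only [eval_sum]
  rw [integral_finsetSum _ fun α _ => (integrable_mono α).const_mul _]
  refine Finset.sum_congr rfl fun α _ => ?_
  rw [integral_const_mul, integral_mono]

theorem continuous_vec (r : ℕ) : Continuous (vec r) := by
  unfold vec
  fun_prop

/-- The variance of a polynomial which is not constant is positive. -/
theorem var_pos {r : ℕ} (φ : MvPolynomial (Fin r) ℝ) (hφ : ∀ a, φ ≠ MvPolynomial.C a) :
    0 < mean (φ ^ 2) - mean φ ^ 2 := by
  have h1 : mean (φ ^ 2) - mean φ ^ 2 =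
      ∫ g, (MvPolynomial.eval (vec r g) φ - mean φ) ^ 2 ∂(gam r) := by
    have e : (fun g : Fin r → ℝ => (MvPolynomial.eval (vec r g) φ - mean φ) ^ 2) = fun g =>
        (MvPolynomial.eval (vec r g) (φ ^ 2) - 2 * mean φ * MvPolynomial.eval (vec r g) φ) +
          mean φ ^ 2 := by
      funext g
      rw [map_pow]; ring
    rw [e, integral_add, integral_sub, integral_const_mul, integral_const]
    · unfold mean
      simp
      ring
    · exact integrable_eval _
    · exact (integrable_eval φ).const_mul _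
    · exact (integrable_eval _).sub ((integrable_eval φ).const_mul _)
    · exact integrable_const _
  rw [h1]
  have hint : Integrable (fun g : Fin r → ℝ => (MvPolynomial.eval (vec r g) φ - mean φ) ^ 2)
      (gam r) := by
    have e : (fun g : Fin r → ℝ => (MvPolynomial.eval (vec r g) φ - mean φ) ^ 2) = fun g =>
        MvPolynomial.eval (vec r g) ((φ - MvPolynomial.C (mean φ)) ^ 2) := by
      funext g
      simp
    rw [e]
    exact integrable_eval _
  have hcont : Continuous fun g : Fin r → ℝ => (MvPolynomial.eval (vec r g) φ - mean φ) ^ 2 := by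
    have h2 : Continuous fun g : Fin r → ℝ => MvPolynomial.eval (vec r g) φ :=
      (MvPolynomial.continuous_eval φ).comp (continuous_vec r)
    exact (h2.sub continuous_const).pow 2
  -- a point with a different value
  have h3 : ∃ g : Fin r → ℝ, MvPolynomial.eval (vec r g) φ ≠ mean φ := by
    by_contra hcon
    push Not at hcon
    apply hφ (mean φ)
    apply MvPolynomial.funext
    intro x
    rw [MvPolynomial.eval_C]
    have h4 : vec r (fun i => (x i - ev2 ((i : ℕ) + 1)) / √((i : ℕ) + 1 : ℕ)) = x := by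
      funext i
      unfold vec
      have h5 : √(((i : ℕ) + 1 : ℕ) : ℝ) ≠ 0 := by
        rw [Real.sqrt_ne_zero']
        exact_mod_cast Nat.succ_pos i
      rw [mul_div_cancel₀ _ h5, sub_add_cancel]
    rw [← h4]
    exact hcon _
  obtain ⟨g0, hg0⟩ := h3
  refine integral_pos_of_integrable_nonneg_nonzero (x := g0) hcont hint (fun g => sq_nonneg _) ?_
  exact pow_ne_zero 2 (sub_ne_zero.2 hg0)

/-- The weighted degree is at most `D`. -/
def WD {r : ℕ} (D : ℕ) (φ : MvPolynomial (Fin r) ℝ) : Prop :=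
  ∀ α ∈ φ.support, ∑ i : Fin r, ((i : ℕ) + 1) * α i ≤ D

theorem WD.mul {r : ℕ} {D D' : ℕ} {φ ψ : MvPolynomial (Fin r) ℝ} (h : WD D φ) (h' : WD D' ψ) :
    WD (D + D') (φ * ψ) := by
  classical
  intro α hα
  obtain ⟨β, hβ, γ, hγ, rfl⟩ := Finset.mem_add.1 (MvPolynomial.support_mul φ ψ hα)
  have h1 := h β hβ
  have h2 := h' γ hγ
  have e : ∑ i : Fin r, ((i : ℕ) + 1) * (β + γ) i = ∑ i : Fin r, ((i : ℕ) + 1) * β i +
      ∑ i : Fin r, ((i : ℕ) + 1) * γ i := by
    rw [← Finset.sum_add_distrib]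
    refine Finset.sum_congr rfl fun i _ => ?_
    rw [Finsupp.add_apply, mul_add]
  omega

theorem WD.pow {r : ℕ} {D : ℕ} {φ : MvPolynomial (Fin r) ℝ} (h : WD D φ) (k : ℕ) :
    WD (k * D) (φ ^ k) := by
  induction k with
  | zero =>
    intro α hα
    rw [pow_zero] at hα
    have h1 : α = 0 := by
      have h2 : MvPolynomial.coeff α (1 : MvPolynomial (Fin r) ℝ) ≠ 0 := MvPolynomial.mem_support_iff.1 hα
      rw [MvPolynomial.coeff_one] at h2
      by_contra h3
      exact h2 (if_neg (Ne.symm h3))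
    simp [h1]
  | succ k ih =>
    rw [pow_succ, Nat.succ_mul]
    exact ih.mul h

theorem WD_total {r : ℕ} (φ : MvPolynomial (Fin r) ℝ) :
    WD (φ.weightedTotalDegree fun i : Fin r => (i : ℕ) + 1) φ := by
  intro α hα
  have h1 := MvPolynomial.le_weightedTotalDegree (fun i : Fin r => (i : ℕ) + 1) hα
  refine le_trans (le_of_eq ?_) h1
  rw [Finsupp.weight_apply, Finsupp.sum_fintype _ _ (fun i => by simp)]
  refine Finset.sum_congr rfl fun i _ => ?_
  rw [smul_eq_mul, mul_comm]

/-- **The mean value of a polynomial in the traces of the powers of Frobenius.** -/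
theorem EM_mv {r : ℕ} (φ : MvPolynomial (Fin r) ℝ) (D : ℕ) (hD : WD D φ) : ∃ C : ℝ, 0 ≤ C ∧
    ∀ (m d : ℕ), 1 ≤ m → D ≤ d + 1 → ∀ (p : ℕ) [Fact p.Prime],
    |EM p (fun c : Mon (2 * m + 1) d → ZMod p =>
      MvPolynomial.eval (fun i : Fin r => tk m d p ((i : ℕ) + 1) c) φ) - mean φ| ≤ C / p := by
  classical
  obtain ⟨C0, hC0⟩ := sit r
  choose C hCn hC using fun α : Fin r →₀ ℕ => mixed r (5 + 4 * r) (by positivity) C0 _ (ext α) 0 rfl
  refine ⟨∑ α ∈ φ.support, |φ.coeff α| * C α,
    Finset.sum_nonneg fun α _ => mul_nonneg (abs_nonneg _) (hCn α), fun m d hm hd p hpf => ?_⟩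
  obtain ⟨s, hs⟩ := hC0 m d hm p
  simp only [eval_sum]
  rw [mean_eq, EM_sum', ← Finset.sum_sub_distrib, Finset.sum_div]
  refine (Finset.abs_sum_le_sum_abs _ _).trans (Finset.sum_le_sum fun α hα => ?_)
  rw [EM_mul', ← mul_sub, abs_mul, mul_div_assoc]
  refine mul_le_mul_of_nonneg_left ?_ (abs_nonneg _)
  have h1 := hC α _ (EM p) s (tk m d p) (1 / p) (d + 1) hs (by
    refine le_trans (le_of_eq ?_) ((hD α hα).trans hd)
    rw [sum_Icc_fin]
    refine Finset.sum_congr rfl fun i _ => ?_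
    rw [ext_succ, Pi.zero_apply, add_zero])
  rw [mul_one_div] at h1
  refine le_trans (le_of_eq ?_) h1
  congr 2
  congr 1
  funext c
  rw [prod_Icc_fin r (fun k => tk m d p k c ^ ext α k), prod_Icc_fin r (fun k => s k c ^ (0 : ℕ → ℕ) k)]
  simp only [ext_succ, Pi.zero_apply, pow_zero, Finset.prod_const_one, mul_one]

end Pool.Agent.K1H81.HV
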