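import Pool.Agent.K1H81.HV.Mix

/-!
# The traces of the powers of Frobenius of a random hypersurface
-/

set_option autoImplicit false
set_option linter.unusedSectionVars false

namespace Pool.Agent.K1H81.HV

open Finset hiding val
open Pool.Agent.Y722.HS Pool.Agent.X280.HG Pool.Agent.X280.BP Pool.Agent.X280.UC

open Classical in
/-- The trace of the `k`-th power of Frobenius on the primitive part of `H^{2m}(X)(m)`, for the
hypersurface `X` in `ℙ^{2m+1}`. -/
noncomputable def tk (m d p : ℕ) [Fact p.Prime] (k : ℕ) (c : Mon (2 * m + 1) d → ZMod p) : ℝ :=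
  ((((PF p (2 * m + 1) k).filter fun v => ev c v = 0).card : ℝ) -
    ∑ i ∈ range (2 * m + 1), ((p : ℝ) ^ k) ^ i) / ((p : ℝ) ^ k) ^ m

section
variable {p : ℕ} [hp : Fact p.Prime] {n d : ℕ}

theorem exists_A (p n : ℕ) [Fact p.Prime] (r : ℕ) : ∃ A : Finset (NV p n),
    (∀ a ∈ A, ∀ b ∈ A, ∀ i, Fr^[i] a = b → a = b) ∧
    ∀ j ∈ Icc 1 r, ∀ f : NV p n → ℝ, (∀ v, f (Fr v) = f v) →
      ∑ v ∈ DD p n j, f v = j * ∑ x ∈ A with deg x = j, f x := by
  classical
  choose A h1 h2 h3 using fun j => exists_reps p n j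
  have hfil : ∀ j ∈ Icc 1 r, ((Icc 1 r).biUnion A).filter (fun x => deg x = j) = A j := by
    intro j hj
    ext x
    rw [Finset.mem_filter, Finset.mem_biUnion]
    constructor
    · rintro ⟨⟨i, hi, hx⟩, hd⟩
      rw [h1 i x hx] at hd
      rwa [← hd]
    · intro hx
      exact ⟨⟨j, hj, hx⟩, h1 j x hx⟩
  refine ⟨(Icc 1 r).biUnion A, fun a ha b hb i hi => ?_, fun j hj f hf => ?_⟩
  · obtain ⟨j, hj, ha⟩ := Finset.mem_biUnion.1 ha
    obtain ⟨l, hl, hb⟩ := Finset.mem_biUnion.1 hb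
    have h4 : j = l := by rw [← h1 j a ha, ← h1 l b hb, ← hi, deg_iter]
    subst h4
    exact h2 j a ha b hb i hi
  · rw [hfil j hj]
    exact h3 j f hf

theorem tk_eq (m d : ℕ) (k : ℕ) (hk : 0 < k) (A : Finset (NV p (2 * m + 1)))
    (hA : ∀ j ∈ k.divisors, ∀ f : NV p (2 * m + 1) → ℝ, (∀ v, f (Fr v) = f v) →
      ∑ v ∈ DD p (2 * m + 1) j, f v = j * ∑ x ∈ A with deg x = j, f x)
    (c : Mon (2 * m + 1) d → ZMod p) :
    tk m d p k c = ∑ j ∈ k.divisors, j * SJ A j c / ((p : ℝ) ^ k) ^ m + mu p m k := by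
  classical
  have h1 : (((PF p (2 * m + 1) k).filter fun v => ev c v = 0).card : ℝ) =
      ∑ v ∈ PF p (2 * m + 1) k, (if ev c v = 0 then (1 : ℝ) else 0) := by
    rw [Finset.sum_boole]
  have h2 : ∀ j ∈ k.divisors, ∑ v ∈ DD p (2 * m + 1) j, (if ev c v = 0 then (1 : ℝ) else 0) =
      j * SJ A j c + ((DD p (2 * m + 1) j).card : ℝ) / (p : ℝ) ^ j := by
    intro j hj
    have h3 := hA j hj (fun v => zz v c) (fun v => zz_Fr v c)
    have h4 : ∑ v ∈ DD p (2 * m + 1) j, (if ev c v = 0 then (1 : ℝ) else 0) =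
        ∑ v ∈ DD p (2 * m + 1) j, (zz v c + 1 / (p : ℝ) ^ j) := by
      refine Finset.sum_congr rfl fun v hv => ?_
      unfold zz
      rw [mem_DD.1 hv, sub_add_cancel]
    rw [h4, Finset.sum_add_distrib, h3, Finset.sum_const, nsmul_eq_mul, mul_one_div]
    rfl
  unfold tk mu
  rw [h1, sum_PF k hk, Finset.sum_congr rfl h2, Finset.sum_add_distrib, ← Finset.sum_div]
  ring

end

/-- **The traces of the powers of Frobenius are a situation.** -/
theorem sit (r : ℕ) : ∃ C : (ℕ → ℕ) → ℝ, ∀ (m d : ℕ), 1 ≤ m → ∀ (p : ℕ) [Fact p.Prime],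
    ∃ s : ℕ → (Mon (2 * m + 1) d → ZMod p) → ℝ,
    Sit r (5 + 4 * r) C (Mon (2 * m + 1) d → ZMod p) (EM p) s (tk m d p) (1 / p) (d + 1) := by
  classical
  -- constants for one degree
  have h1 : ∀ j b : ℕ, ∃ C : ℝ, 0 ≤ C ∧ (1 ≤ j → ∀ (m : ℕ), 1 ≤ m → ∀ p : ℝ, 2 ≤ p → ∀ N : ℕ,
      |(j * N : ℝ) - (p ^ j) ^ (2 * m + 1)| ≤ (2 + 2 * j) * (p ^ j) ^ (2 * m + 1) / p →
      |√j ^ b * ME (eb (p ^ j)) N b / ((p ^ j) ^ m) ^ b - gm b| ≤ C / p) := by
    intro j b
    by_cases hj : 1 ≤ j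
    · obtain ⟨C, hC0, hC⟩ := one_degree j b hj (2 + 2 * j) (by positivity)
      exact ⟨C, hC0, fun _ => hC⟩
    · exact ⟨0, le_rfl, fun h => absurd h hj⟩
  choose C0 hC00 hC0 using h1
  choose C hCn hC using fun b : ℕ → ℕ => prod_approx (Icc 1 r) (fun j => gm (b j))
    (fun j => C0 j (b j)) fun j => hC00 j (b j)
  refine ⟨C, fun m d hm p hpf => ?_⟩
  obtain ⟨A, hA1, hA2⟩ := exists_A p (2 * m + 1) r
  have hp2 : (2 : ℝ) ≤ p := by exact_mod_cast hpf.out.two_le
  have hp0 : (0 : ℝ) < p := by linarith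
  have hp1 : (1 : ℝ) ≤ p := by linarith
  refine ⟨fun j c => √j * SJ A j c / ((p : ℝ) ^ j) ^ m, EM_add' p, EM_mul' p, by positivity, ?_,
    fun k hk => ?_, fun b hb => ?_⟩
  · rw [div_le_one hp0]
    exact hp1
  · -- the representation
    rw [Finset.mem_Icc] at hk
    have hsub : ∀ j ∈ k.divisors, j ∈ Icc 1 r := by
      intro j hj
      have h2 := Nat.divisor_le hj
      have h3 := Nat.pos_of_mem_divisors hj
      rw [Finset.mem_Icc]
      omega
    have hkr : (k : ℝ) ≤ r := by exact_mod_cast hk.2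
    have hK : (5 + 4 * (k : ℝ)) / p ≤ (5 + 4 * (r : ℝ)) * (1 / p) := by
      rw [mul_one_div]
      gcongr
    refine ⟨fun j => √j * ((p : ℝ) ^ j) ^ m / ((p : ℝ) ^ k) ^ m, mu p m k, fun j hj => ?_, ?_,
      fun c => ?_⟩
    · obtain ⟨hjk, hlt⟩ := Nat.mem_properDivisors.1 hj
      have hj1 : 1 ≤ j := Nat.pos_of_dvd_of_pos hjk (by omega)
      have h2 : √(j : ℝ) ≤ j := by
        rw [Real.sqrt_le_left (by positivity)]
        have : (1 : ℝ) ≤ j := by exact_mod_cast hj1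
        nlinarith
      have h3 : (j : ℝ) ≤ r := by
        have : j ≤ r := by omega
        exact_mod_cast this
      have h4 : ((p : ℝ) ^ j) ^ m * p ≤ ((p : ℝ) ^ k) ^ m := by
        rw [← pow_mul, ← pow_mul, ← pow_succ]
        refine pow_le_pow_right₀ hp1 ?_
        nlinarith
      have h5 : 0 < ((p : ℝ) ^ k) ^ m := by positivity
      rw [abs_of_nonneg (by positivity), mul_one_div, div_le_div_iff₀ h5 hp0]
      calc √(j : ℝ) * ((p : ℝ) ^ j) ^ m * p = √(j : ℝ) * (((p : ℝ) ^ j) ^ m * p) := by ring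
        _ ≤ (5 + 4 * (r : ℝ)) * ((p : ℝ) ^ k) ^ m := by
            gcongr
            have : (0 : ℝ) ≤ r := Nat.cast_nonneg _
            linarith
    · exact (mu_asy m k hm hk.1).trans hK
    · rw [tk_eq m d k (by omega) A (fun j hj => hA2 j (hsub j hj)) c,
        ← Nat.cons_self_properDivisors (by omega : k ≠ 0), Finset.sum_cons]
      congr 2
      · have h2 : √(k : ℝ) * √(k : ℝ) = k := Real.mul_self_sqrt (Nat.cast_nonneg _)
        rw [mul_div_assoc', ← mul_assoc, h2]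
      · refine Finset.sum_congr rfl fun j hj => ?_
        have h2 : √(j : ℝ) * √(j : ℝ) = j := Real.mul_self_sqrt (Nat.cast_nonneg _)
        have h3 : 0 < ((p : ℝ) ^ j) ^ m := by positivity
        have h4 : 0 < ((p : ℝ) ^ k) ^ m := by positivity
        have e : √(j : ℝ) * ((p : ℝ) ^ j) ^ m / ((p : ℝ) ^ k) ^ m *
            (√(j : ℝ) * SJ A j c / ((p : ℝ) ^ j) ^ m) =
            (√(j : ℝ) * √(j : ℝ)) * SJ A j c / ((p : ℝ) ^ k) ^ m := by
          field_simp
        rw [e, h2]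
  · -- the moments
    have e1 : (fun c : Mon (2 * m + 1) d → ZMod p =>
        ∏ j ∈ Icc 1 r, (√(j : ℝ) * SJ A j c / ((p : ℝ) ^ j) ^ m) ^ b j) = fun c =>
        (∏ j ∈ Icc 1 r, (√(j : ℝ) / ((p : ℝ) ^ j) ^ m) ^ b j) * ∏ j ∈ Icc 1 r, SJ A j c ^ b j := by
      funext c
      rw [← Finset.prod_mul_distrib]
      refine Finset.prod_congr rfl fun j _ => ?_
      rw [← mul_pow]
      congr 1
      ring
    rw [e1, EM_mul', EM_joint r A hA1 b hb, ← Finset.prod_mul_distrib]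
    refine hC b (1 / p) (by positivity) (by rw [div_le_one hp0]; exact hp1) _ fun j hj => ?_
    have hj1 := (Finset.mem_Icc.1 hj).1
    have h2 : (j * ((A.filter fun x => deg x = j).card : ℝ)) = ((DD p (2 * m + 1) j).card : ℝ) := by
      have h3 := hA2 j hj (fun _ => 1) fun _ => rfl
      simp only [Finset.sum_const, nsmul_eq_mul, mul_one] at h3
      exact h3.symm
    have h4 := hC0 j (b j) hj1 m hm p hp2 (A.filter fun x => deg x = j).card (by
      rw [h2]
      exact DD_asy j (2 * m + 1) hj1 (by omega))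
    rw [mul_one_div]
    refine le_trans (le_of_eq ?_) h4
    congr 2
    rw [div_pow]
    ring

end Pool.Agent.K1H81.HV
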