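import Pool.Agent.K1H81.HV.Gs
import Pool.Agent.K1H81.HV.Defs

/-!
# The normal law for the Sato–Tate sums of random hypersurfaces
-/

set_option autoImplicit false
set_option linter.unusedSectionVars false

namespace Pool.Agent.K1H81.HV

open Finset hiding val
open MeasureTheory ProbabilityTheory
open Pool.Agent.Y722.HS Pool.Agent.X280.HG Pool.Agent.X280.BP Pool.Agent.X280.UC

theorem trace_eq {m d : ℕ} (c : Mon (2 * m + 1) d → ℤ) (p k : ℕ) [hp : Fact p.Prime] (hk : 0 < k) :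
    trace c p k = tk m d p k (red p c) := by
  classical
  have hfin : Finite (GaloisField p k) := inferInstance
  let _ := Fintype.ofFinite (GaloisField p k)
  have hq : Fintype.card (GaloisField p k) = p ^ k := by
    rw [← Nat.card_eq_fintype_card]
    exact GaloisField.card p k hk.ne'
  let ι : GaloisField p k →+* KK p := (IsAlgClosed.lift (R := ZMod p)).toRingHom
  have h1 := card_cone (n := 2 * m + 1) (d := d) k hk hq ι (algebraMap (ZMod p) (GaloisField p k))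
    (red p c)
  have h2 : Nat.card {x : Fin (2 * m + 1 + 1) → GaloisField p k // x ≠ 0 ∧
      MvPolynomial.eval x (form fun μ => (c μ : GaloisField p k)) = 0} =
      (p ^ k - 1) * ((PF p (2 * m + 1) k).filter fun v => ev (red p c) v = 0).card := by
    have h3 : Nat.card {v : NV p (2 * m + 1) // v ∈ PF p (2 * m + 1) k ∧ ev (red p c) v = 0} =
        ((PF p (2 * m + 1) k).filter fun v => ev (red p c) v = 0).card := by
      rw [← Nat.card_eq_finsetCard]
      exact Nat.card_congr (Equiv.subtypeEquivRight fun x => by rw [Finset.mem_filter])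
    rw [h3] at h1
    rw [← h1]
    refine Nat.card_congr (Equiv.subtypeEquivRight fun x => ?_)
    rw [eval_form]
    have h4 : ∀ μ, algebraMap (ZMod p) (GaloisField p k) (red p c μ) = (c μ : GaloisField p k) := by
      intro μ
      unfold red
      rw [map_intCast]
    unfold val
    simp only [h4]
  have hpk : (1 : ℝ) < (p : ℝ) ^ k := one_lt_pow₀ (by exact_mod_cast hp.out.one_lt) hk.ne'
  unfold trace numPoints tk
  rw [dif_pos hp.out, h2]
  congr 2
  rw [Nat.cast_mul, Nat.cast_sub (Nat.one_le_pow _ _ hp.out.pos)]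
  push_cast
  rw [mul_div_cancel_left₀ _ (by linarith : (p : ℝ) ^ k - 1 ≠ 0)]

/-- The polynomial in the traces, for all moduli. -/
noncomputable def UU {r : ℕ} (φ : MvPolynomial (Fin r) ℝ) (m d p : ℕ)
    (c : Mon (2 * m + 1) d → ZMod p) : ℝ :=
  if h : p.Prime then
    haveI : Fact p.Prime := ⟨h⟩
    MvPolynomial.eval (fun i : Fin r => tk m d p ((i : ℕ) + 1) c) φ
  else 0

theorem UU_eq {r : ℕ} (φ : MvPolynomial (Fin r) ℝ) (m d p : ℕ) [hp : Fact p.Prime] :
    UU φ m d p = fun c : Mon (2 * m + 1) d → ZMod p =>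
      MvPolynomial.eval (fun i : Fin r => tk m d p ((i : ℕ) + 1) c) φ := by
  funext c
  unfold UU
  rw [dif_pos hp.out]

/-- The local data. -/
theorem ld {r : ℕ} (φ : MvPolynomial (Fin r) ℝ) (D : ℕ) (hD : WD D φ) : ∃ C : ℝ, ∀ (m d : ℕ),
    1 ≤ m → 4 * D ≤ d + 1 → LD (UU φ m d) (mean φ) (mean (φ ^ 2)) C := by
  obtain ⟨C1, h10, h1⟩ := EM_mv φ D hD
  obtain ⟨C2, h20, h2⟩ := EM_mv (φ ^ 2) (2 * D) (hD.pow 2)
  obtain ⟨C4, h40, h4⟩ := EM_mv (φ ^ 4) (4 * D) (hD.pow 4)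
  refine ⟨C1 + C2 + C4 + |mean (φ ^ 4)|, fun m d hm hd => ?_⟩
  have hle : ∀ p : ℕ, p.Prime → ∀ c : ℝ, c ≤ C1 + C2 + C4 + |mean (φ ^ 4)| →
      c / p ≤ (C1 + C2 + C4 + |mean (φ ^ 4)|) / p := by
    intro p hp c hc
    have : (0 : ℝ) < p := by exact_mod_cast hp.pos
    gcongr
  have ha := abs_nonneg (mean (φ ^ 4))
  refine ⟨by positivity, fun p hp _ => ?_, fun p hp _ => ?_, fun p hp _ => ?_⟩
  · have : Fact p.Prime := ⟨hp⟩
    rw [UU_eq]
    exact (h1 m d hm (by omega) p).trans (hle p hp _ (by linarith))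
  · have : Fact p.Prime := ⟨hp⟩
    have h := (h2 m d hm (by omega) p).trans (hle p hp _ (by linarith))
    simp only [map_pow] at h
    rw [UU_eq]
    exact h
  · have : Fact p.Prime := ⟨hp⟩
    have h := h4 m d hm hd p
    simp only [map_pow] at h
    rw [UU_eq]
    have h5 := (abs_le.mp h).2
    have hp1 : (1 : ℝ) ≤ p := by exact_mod_cast hp.one_lt.le
    have h6 : C4 / p ≤ C4 := div_le_self h40 hp1
    have h7 := le_abs_self (mean (φ ^ 4))
    linarith

/-- **The normal law for the Sato–Tate sums of hypersurfaces.** -/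
theorem law_mv {r : ℕ} (φ : MvPolynomial (Fin r) ℝ) (hφ : ∀ a, φ ≠ MvPolynomial.C a) (m d : ℕ)
    (hm : 1 ≤ m) (hd : 4 * (φ.weightedTotalDegree fun i : Fin r => (i : ℕ) + 1) ≤ d + 1) (δ : ℝ)
    (hδ : 0 < δ) (u ε : ℝ) (hε : 0 < ε) :
    ∃ K : ℕ, ∀ (P : Finset ℕ) (w : ℕ → ℝ) (y H : ℕ), (∀ p ∈ P, p.Prime ∧ p ≤ y) →
      (∀ p ∈ P, |w p| ≤ 1) → δ * P.card ≤ ∑ p ∈ P, w p ^ 2 → K ≤ P.card → y ^ K ≤ H →
      |({c : Mon (2 * m + 1) d → ℤ | (∀ μ, |c μ| ≤ H) ∧
        ∑ p ∈ P, w p * (MvPolynomial.eval (fun k : Fin r => trace c p ((k : ℕ) + 1)) φ - mean φ) ≤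
          u * √((mean (φ ^ 2) - mean φ ^ 2) * ∑ p ∈ P, w p ^ 2)}.ncard : ℝ) /
        (2 * H + 1 : ℝ) ^ Fintype.card (Mon (2 * m + 1) d) -
          (gaussianReal 0 1).real (Set.Iic u)| ≤ ε := by
  classical
  obtain ⟨C, hC⟩ := ld φ _ (WD_total φ)
  have hv := var_pos φ hφ
  obtain ⟨K, hK⟩ := abs_law (hC m d hm hd) hv hδ u hε
  refine ⟨max K 1, fun P w y H hP hw hvar hcard hH => ?_⟩
  have hc1 : 1 ≤ P.card := (le_max_right _ _).trans hcard
  have hy1 : 1 ≤ y := by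
    obtain ⟨p, hp⟩ : P.Nonempty := by rw [← Finset.card_pos]; omega
    have h1 := (hP p hp).2
    have h2 := (hP p hp).1.pos
    omega
  have hfin := hK P w y H hP hw hvar ((le_max_left _ _).trans hcard)
    ((Nat.pow_le_pow_right hy1 (le_max_left _ _)).trans hH)
  have hW0 : 0 < ∑ p ∈ P, w p ^ 2 := by
    have : (1 : ℝ) ≤ P.card := by exact_mod_cast hc1
    have h2 : 0 < δ * P.card := by positivity
    linarith
  have hs0 : 0 < √((mean (φ ^ 2) - mean φ ^ 2) * ∑ p ∈ P, w p ^ 2) :=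
    Real.sqrt_pos.2 (mul_pos hv hW0)
  rw [measureReal_def, law_apply H _ _ measurableSet_Iic,
    ENNReal.toReal_ofReal (by positivity)] at hfin
  rw [ncard_box]
  have e : ((Pool.Agent.Y722.HS.box (Mon (2 * m + 1) d) H).filter (fun c =>
      ∑ p ∈ P, w p * (MvPolynomial.eval (fun k : Fin r => trace c p ((k : ℕ) + 1)) φ - mean φ) ≤
          u * √((mean (φ ^ 2) - mean φ ^ 2) * ∑ p ∈ P, w p ^ 2))) =
      (Pool.Agent.Y722.HS.box (Mon (2 * m + 1) d) H).filter (fun c =>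
        (∑ p ∈ P, w p * (UU φ m d p (red p c) - mean φ)) /
        √((mean (φ ^ 2) - mean φ ^ 2) * ∑ p ∈ P, w p ^ 2) ∈ Set.Iic u) := by
    apply Finset.filter_congr
    intro c _
    rw [Set.mem_Iic, div_le_iff₀ hs0]
    have h1 : ∑ p ∈ P, w p * (MvPolynomial.eval (fun k : Fin r => trace c p ((k : ℕ) + 1)) φ -
        mean φ) = ∑ p ∈ P, w p * (UU φ m d p (red p c) - mean φ) := by
      refine Finset.sum_congr rfl fun p hp => ?_
      have : Fact p.Prime := ⟨(hP p hp).1⟩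
      rw [UU_eq]
      simp only [trace_eq c p _ (Nat.succ_pos _)]
    rw [h1]
  rw [e]
  exact hfin

end Pool.Agent.K1H81.HV
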