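import Pool.Agent.K1H81.HV.One

/-!
# Mixed moments
-/

set_option autoImplicit false
set_option linter.unusedSectionVars false

namespace Pool.Agent.K1H81.HV

open Finset hiding val
open Pool.Agent.Y722.HS Pool.Agent.X280.HG Pool.Agent.X280.BP Pool.Agent.X280.UC

/-- one if `k` is even, and zero if not -/
noncomputable def ev2 (k : ℕ) : ℝ := if Even k then 1 else 0

theorem ev2_abs (k : ℕ) : |ev2 k| ≤ 1 := by
  unfold ev2
  split_ifs <;> simp

/-- The mean value of `(√k x + [2 ∣ k])^a x^b` for a normal variable `x`. -/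
noncomputable def G1 (k : ℕ) : ℕ → ℕ → ℝ
  | 0, b => gm b
  | a + 1, b => √k * G1 k a (b + 1) + ev2 k * G1 k a b

noncomputable def GG (r : ℕ) (a b : ℕ → ℕ) : ℝ := ∏ k ∈ Icc 1 r, G1 k (a k) (b k)

/-- Random variables `s k`, approximately normal, and `t k`. -/
structure Sit (r : ℕ) (K : ℝ) (C : (ℕ → ℕ) → ℝ) (Ω : Type) (E : (Ω → ℝ) → ℝ) (s t : ℕ → Ω → ℝ)
    (δ : ℝ) (D : ℕ) : Prop where
  add : ∀ f g, E (fun c => f c + g c) = E f + E g
  mul : ∀ (x : ℝ) f, E (fun c => x * f c) = x * E f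
  δ0 : 0 ≤ δ
  δ1 : δ ≤ 1
  rep : ∀ k ∈ Icc 1 r, ∃ (κ : ℕ → ℝ) (μ : ℝ), (∀ j ∈ k.properDivisors, |κ j| ≤ K * δ) ∧
    |μ - ev2 k| ≤ K * δ ∧
    ∀ c, t k c = √k * s k c + ∑ j ∈ k.properDivisors, κ j * s j c + μ
  mom : ∀ b : ℕ → ℕ, ∑ j ∈ Icc 1 r, j * b j ≤ D →
    |E (fun c => ∏ j ∈ Icc 1 r, s j c ^ b j) - ∏ j ∈ Icc 1 r, gm (b j)| ≤ C b * δ

section
variable {r : ℕ} {Ω : Type}

theorem prod_up (s : ℕ → Ω → ℝ) (b : ℕ → ℕ) {j : ℕ} (hj : j ∈ Icc 1 r) (c : Ω) :
    s j c * ∏ k ∈ Icc 1 r, s k c ^ b k =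
      ∏ k ∈ Icc 1 r, s k c ^ Function.update b j (b j + 1) k := by
  rw [← Finset.mul_prod_erase _ _ hj, ← Finset.mul_prod_erase (Icc 1 r)
    (fun k => s k c ^ Function.update b j (b j + 1) k) hj, Function.update_self, pow_succ]
  have : ∏ k ∈ (Icc 1 r).erase j, s k c ^ Function.update b j (b j + 1) k =
      ∏ k ∈ (Icc 1 r).erase j, s k c ^ b k :=
    Finset.prod_congr rfl fun k hk => by
      rw [Function.update_of_ne (Finset.ne_of_mem_erase hk)]
  rw [this]
  ring

theorem sum_up (w b : ℕ → ℕ) {j : ℕ} (hj : j ∈ Icc 1 r) :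
    ∑ k ∈ Icc 1 r, w k * Function.update b j (b j + 1) k = ∑ k ∈ Icc 1 r, w k * b k + w j := by
  rw [← Finset.add_sum_erase _ _ hj, ← Finset.add_sum_erase (Icc 1 r) (fun k => w k * b k) hj,
    Function.update_self]
  have : ∑ k ∈ (Icc 1 r).erase j, w k * Function.update b j (b j + 1) k =
      ∑ k ∈ (Icc 1 r).erase j, w k * b k :=
    Finset.sum_congr rfl fun k hk => by
      rw [Function.update_of_ne (Finset.ne_of_mem_erase hk)]
  rw [this]
  ring

theorem GG_step (a b : ℕ → ℕ) {k : ℕ} (hk : k ∈ Icc 1 r) :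
    GG r (Function.update a k (a k + 1)) b =
      √k * GG r a (Function.update b k (b k + 1)) + ev2 k * GG r a b := by
  unfold GG
  rw [← Finset.mul_prod_erase _ _ hk, ← Finset.mul_prod_erase (Icc 1 r)
    (fun l => G1 l (a l) (Function.update b k (b k + 1) l)) hk,
    ← Finset.mul_prod_erase (Icc 1 r) (fun l => G1 l (a l) (b l)) hk, Function.update_self,
    Function.update_self, G1]
  have h1 : ∏ l ∈ (Icc 1 r).erase k, G1 l (Function.update a k (a k + 1) l) (b l) =
      ∏ l ∈ (Icc 1 r).erase k, G1 l (a l) (b l) :=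
    Finset.prod_congr rfl fun l hl => by
      rw [Function.update_of_ne (Finset.ne_of_mem_erase hl)]
  have h2 : ∏ l ∈ (Icc 1 r).erase k, G1 l (a l) (Function.update b k (b k + 1) l) =
      ∏ l ∈ (Icc 1 r).erase k, G1 l (a l) (b l) :=
    Finset.prod_congr rfl fun l hl => by
      rw [Function.update_of_ne (Finset.ne_of_mem_erase hl)]
  rw [h1, h2]
  ring

/-- **The mixed moments.** -/
theorem mixed (r : ℕ) (K : ℝ) (hK : 0 ≤ K) (C : (ℕ → ℕ) → ℝ) (N : ℕ) : ∀ a b : ℕ → ℕ,
    ∑ k ∈ Icc 1 r, a k = N → ∃ C' : ℝ, 0 ≤ C' ∧ ∀ (Ω : Type) (E : (Ω → ℝ) → ℝ) (s t : ℕ → Ω → ℝ)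
      (δ : ℝ) (D : ℕ), Sit r K C Ω E s t δ D → ∑ k ∈ Icc 1 r, k * (a k + b k) ≤ D →
      |E (fun c => (∏ k ∈ Icc 1 r, t k c ^ a k) * ∏ k ∈ Icc 1 r, s k c ^ b k) - GG r a b| ≤
        C' * δ := by
  classical
  induction N with
  | zero =>
    intro a b ha
    have ha0 : ∀ k ∈ Icc 1 r, a k = 0 := fun k hk => by
      have := Finset.single_le_sum (f := a) (fun _ _ => Nat.zero_le _) hk
      omega
    refine ⟨|C b|, abs_nonneg _, fun Ω E s t δ D h hD => ?_⟩
    have e1 : (fun c => (∏ k ∈ Icc 1 r, t k c ^ a k) * ∏ k ∈ Icc 1 r, s k c ^ b k) =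
        fun c => ∏ k ∈ Icc 1 r, s k c ^ b k := by
      funext c
      rw [Finset.prod_eq_one fun k hk => by rw [ha0 k hk, pow_zero], one_mul]
    have e2 : GG r a b = ∏ j ∈ Icc 1 r, gm (b j) := by
      unfold GG
      refine Finset.prod_congr rfl fun k hk => ?_
      rw [ha0 k hk, G1]
    rw [e1, e2]
    refine (h.mom b ?_).trans (mul_le_mul_of_nonneg_right (le_abs_self _) h.δ0)
    refine le_trans (Finset.sum_le_sum fun k _ => ?_) hD
    exact Nat.mul_le_mul_left _ (Nat.le_add_left _ _)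
  | succ N ih =>
    intro a b ha
    obtain ⟨k0, hk0, hak⟩ : ∃ k0 ∈ Icc 1 r, a k0 ≠ 0 := by
      by_contra hcon
      push Not at hcon
      rw [Finset.sum_eq_zero hcon] at ha
      omega
    obtain ⟨a', ha'⟩ : ∃ a', Function.update a k0 (a k0 - 1) = a' := ⟨_, rfl⟩
    have haa : a = Function.update a' k0 (a' k0 + 1) := by
      rw [← ha', Function.update_self, Function.update_idem, Nat.sub_add_cancel
        (Nat.pos_of_ne_zero hak), Function.update_eq_self]
    have hN : ∑ k ∈ Icc 1 r, a' k = N := by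
      have h1 := sum_up (fun _ => 1) a' hk0
      simp only [one_mul] at h1
      rw [← haa, ha] at h1
      omega
    obtain ⟨C1, hC10, hC1⟩ := ih a' (Function.update b k0 (b k0 + 1)) hN
    obtain ⟨C2, hC20, hC2⟩ := ih a' b hN
    choose C3 hC30 hC3 using fun j => ih a' (Function.update b j (b j + 1)) hN
    refine ⟨√k0 * C1 + ∑ j ∈ k0.properDivisors,
      K * (|GG r a' (Function.update b j (b j + 1))| + C3 j) + (K * (|GG r a' b| + C2) + C2), ?_,
      fun Ω E s t δ D h hD => ?_⟩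
    · have h3 : 0 ≤ ∑ j ∈ k0.properDivisors, K * (|GG r a' (Function.update b j (b j + 1))| + C3 j) :=
        Finset.sum_nonneg fun j _ => by
          have := hC30 j
          positivity
      positivity
    obtain ⟨κ, μ, hκ, hμ, hrep⟩ := h.rep k0 hk0
    have hpd : ∀ j ∈ k0.properDivisors, j ∈ Icc 1 r ∧ j ≤ k0 := by
      intro j hj
      obtain ⟨hjk, hlt⟩ := Nat.mem_properDivisors.1 hj
      rw [Finset.mem_Icc] at hk0 ⊢
      have : 0 < j := Nat.pos_of_dvd_of_pos hjk (by omega)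
      omega
    -- weights
    have hw : ∑ k ∈ Icc 1 r, k * (a k + b k) = ∑ k ∈ Icc 1 r, k * (a' k + b k) + k0 := by
      simp only [mul_add]
      rw [Finset.sum_add_distrib, Finset.sum_add_distrib]
      have h1 := sum_up (fun k => k) a' hk0
      rw [← haa] at h1
      omega
    have hwj : ∀ j ∈ Icc 1 r, ∑ k ∈ Icc 1 r, k * (a' k + Function.update b j (b j + 1) k) =
        ∑ k ∈ Icc 1 r, k * (a' k + b k) + j := by
      intro j hj
      simp only [mul_add]
      rw [Finset.sum_add_distrib, Finset.sum_add_distrib]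
      have h1 := sum_up (fun k => k) b hj
      omega
    -- abbreviations
    let P : (ℕ → ℕ) → Ω → ℝ := fun b c =>
      (∏ k ∈ Icc 1 r, t k c ^ a' k) * ∏ k ∈ Icc 1 r, s k c ^ b k
    have hP : ∀ j ∈ Icc 1 r, ∀ c, s j c * P b c = P (Function.update b j (b j + 1)) c := by
      intro j hj c
      change s j c * ((∏ k ∈ Icc 1 r, t k c ^ a' k) * ∏ k ∈ Icc 1 r, s k c ^ b k) = _
      rw [mul_left_comm, prod_up s b hj c]
    have e1 : (fun c => (∏ k ∈ Icc 1 r, t k c ^ a k) * ∏ k ∈ Icc 1 r, s k c ^ b k) = fun c =>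
        √k0 * P (Function.update b k0 (b k0 + 1)) c +
        (∑ j ∈ k0.properDivisors, κ j * P (Function.update b j (b j + 1)) c + μ * P b c) := by
      funext c
      conv_lhs => rw [haa]
      rw [← prod_up t a' hk0 c, hrep c, mul_assoc]
      change (√k0 * s k0 c + ∑ j ∈ k0.properDivisors, κ j * s j c + μ) * P b c = _
      rw [← hP k0 hk0, add_mul, add_mul, Finset.sum_mul, mul_assoc, add_assoc]
      congr 2
      refine Finset.sum_congr rfl fun j hj => ?_
      rw [← hP j (hpd j hj).1, mul_assoc]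
    have hEsum : ∀ (S : Finset ℕ) (f : ℕ → Ω → ℝ),
        E (fun c => ∑ j ∈ S, f j c) = ∑ j ∈ S, E (f j) := by
      intro S f
      induction S using Finset.induction_on with
      | empty =>
        have h1 := h.mul 0 (fun _ => 0)
        simp only [mul_zero, zero_mul] at h1
        simpa using h1
      | insert i S hi ih =>
        simp only [Finset.sum_insert hi]
        rw [h.add, ih]
    rw [e1, h.add, h.add, h.mul, h.mul, hEsum, haa, GG_step a' b hk0]
    have e2 : ∀ j ∈ k0.properDivisors, E (fun c => κ j * P (Function.update b j (b j + 1)) c) =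
        κ j * E (P (Function.update b j (b j + 1))) := fun j _ => h.mul _ _
    rw [Finset.sum_congr rfl e2]
    have b1 : |E (P (Function.update b k0 (b k0 + 1))) - GG r a' (Function.update b k0 (b k0 + 1))| ≤
        C1 * δ := hC1 Ω E s t δ D h (by rw [hwj k0 hk0, ← hw]; exact hD)
    have b2 : |E (P b) - GG r a' b| ≤ C2 * δ := hC2 Ω E s t δ D h (by omega)
    have b3 : ∀ j ∈ k0.properDivisors, |κ j * E (P (Function.update b j (b j + 1)))| ≤
        K * (|GG r a' (Function.update b j (b j + 1))| + C3 j) * δ := by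
      intro j hj
      obtain ⟨hj1, hj2⟩ := hpd j hj
      have h1 : |E (P (Function.update b j (b j + 1))) - GG r a' (Function.update b j (b j + 1))| ≤
          C3 j * δ := hC3 j Ω E s t δ D h (by rw [hwj j hj1]; omega)
      have h2 : C3 j * δ ≤ C3 j := mul_le_of_le_one_right (hC30 j) h.δ1
      have h3 := abs_add_le (E (P (Function.update b j (b j + 1))) -
        GG r a' (Function.update b j (b j + 1))) (GG r a' (Function.update b j (b j + 1)))
      rw [sub_add_cancel] at h3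
      rw [abs_mul]
      have h4 := hC30 j
      have hδ := h.δ0
      calc |κ j| * |E (P (Function.update b j (b j + 1)))| ≤ (K * δ) *
          (|GG r a' (Function.update b j (b j + 1))| + C3 j) := by
            gcongr
            · exact hκ j hj
            · linarith
        _ = _ := by ring
    have b4 : |μ * E (P b) - ev2 k0 * GG r a' b| ≤ (K * (|GG r a' b| + C2) + C2) * δ := by
      have e3 : μ * E (P b) - ev2 k0 * GG r a' b = (μ - ev2 k0) * E (P b) +
          ev2 k0 * (E (P b) - GG r a' b) := by ring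
      have h2 : C2 * δ ≤ C2 := mul_le_of_le_one_right hC20 h.δ1
      have h3 := abs_add_le (E (P b) - GG r a' b) (GG r a' b)
      rw [sub_add_cancel] at h3
      have hδ := h.δ0
      rw [e3]
      refine (abs_add_le _ _).trans ?_
      rw [abs_mul, abs_mul]
      have h5 : |μ - ev2 k0| * |E (P b)| ≤ (K * δ) * (|GG r a' b| + C2) := by
        gcongr
        linarith
      have h6 : |ev2 k0| * |E (P b) - GG r a' b| ≤ 1 * (C2 * δ) := by
        gcongr
        exact ev2_abs k0
      calc _ ≤ (K * δ) * (|GG r a' b| + C2) + 1 * (C2 * δ) := add_le_add h5 h6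
        _ = _ := by ring
    have e4 : √k0 * E (P (Function.update b k0 (b k0 + 1))) +
        (∑ j ∈ k0.properDivisors, κ j * E (P (Function.update b j (b j + 1))) + μ * E (P b)) -
        (√k0 * GG r a' (Function.update b k0 (b k0 + 1)) + ev2 k0 * GG r a' b) =
        √k0 * (E (P (Function.update b k0 (b k0 + 1))) -
          GG r a' (Function.update b k0 (b k0 + 1))) +
        ∑ j ∈ k0.properDivisors, κ j * E (P (Function.update b j (b j + 1))) +
        (μ * E (P b) - ev2 k0 * GG r a' b) := by ring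
    rw [e4, add_mul, add_mul]
    refine (abs_add_le _ _).trans (add_le_add ((abs_add_le _ _).trans (add_le_add ?_ ?_)) b4)
    · rw [abs_mul, abs_of_nonneg (Real.sqrt_nonneg _), mul_assoc]
      exact mul_le_mul_of_nonneg_left b1 (Real.sqrt_nonneg _)
    · rw [Finset.sum_mul]
      exact (Finset.abs_sum_le_sum_abs _ _).trans (Finset.sum_le_sum b3)

end

/-- Products of approximate values. -/
theorem prod_approx {ι : Type*} [DecidableEq ι] (s : Finset ι) (y C : ι → ℝ) (hC : ∀ i, 0 ≤ C i) :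
    ∃ C' : ℝ, 0 ≤ C' ∧ ∀ (δ : ℝ), 0 ≤ δ → δ ≤ 1 → ∀ x : ι → ℝ, (∀ i ∈ s, |x i - y i| ≤ C i * δ) →
      |∏ i ∈ s, x i - ∏ i ∈ s, y i| ≤ C' * δ := by
  induction s using Finset.induction_on with
  | empty => exact ⟨0, le_rfl, fun δ _ _ x _ => by simp⟩
  | insert i s hi ih =>
    obtain ⟨C', hC'0, hC'⟩ := ih
    have hi0 := hC i
    refine ⟨(|y i| + C i) * C' + C i * |∏ k ∈ s, y k|, by positivity, fun δ h0 h1 x hx => ?_⟩
    rw [Finset.prod_insert hi, Finset.prod_insert hi]
    have e : x i * ∏ k ∈ s, x k - y i * ∏ k ∈ s, y k =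
        x i * (∏ k ∈ s, x k - ∏ k ∈ s, y k) + (x i - y i) * ∏ k ∈ s, y k := by ring
    have h2 := hx i (Finset.mem_insert_self i s)
    have h3 := hC' δ h0 h1 x fun k hk => hx k (Finset.mem_insert_of_mem hk)
    have h4 : |x i| ≤ |y i| + C i := by
      have h5 := abs_add_le (x i - y i) (y i)
      rw [sub_add_cancel] at h5
      have h6 : C i * δ ≤ C i := mul_le_of_le_one_right hi0 h1
      linarith
    rw [e]
    refine (abs_add_le _ _).trans ?_
    rw [abs_mul, abs_mul]
    calc |x i| * |∏ k ∈ s, x k - ∏ k ∈ s, y k| + |x i - y i| * |∏ k ∈ s, y k|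
        ≤ (|y i| + C i) * (C' * δ) + (C i * δ) * |∏ k ∈ s, y k| := by gcongr
      _ = _ := by ring

end Pool.Agent.K1H81.HV
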