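import Pool.Agent.K1H81.HV.Cnt

/-!
# Joint moments of the numbers of closed points of a hypersurface
-/

set_option autoImplicit false
set_option linter.unusedSectionVars false

namespace Pool.Agent.K1H81.HV

open Finset hiding val
open Pool.Agent.Y722.HS Pool.Agent.X280.HG Pool.Agent.X280.BP

/-- The moments of the centred indicator of an event of probability `1 / q`. -/
noncomputable def eb (q : ℝ) (k : ℕ) : ℝ := (1 / q) * (1 - 1 / q) ^ k + (1 - 1 / q) * (-(1 / q)) ^ k

theorem adm_eb {q : ℝ} (hq : 1 ≤ q) : Adm (eb q) ((1 / q) * (1 - 1 / q)) := by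
  have hq0 : 0 < q := by linarith
  obtain ⟨t, ht⟩ : ∃ t, 1 / q = t := ⟨_, rfl⟩
  have ht0 : 0 < t := by rw [← ht]; positivity
  have ht1 : t ≤ 1 := by rw [← ht, div_le_one hq0]; exact hq
  have e : ∀ k, eb q k = t * (1 - t) ^ k + (1 - t) * (-t) ^ k := by
    intro k
    unfold eb
    rw [ht]
  rw [ht]
  have h1t : 0 ≤ 1 - t := by linarith
  refine ⟨?_, ?_, ?_, fun k hk => ?_, ?_, ?_⟩
  · rw [e]; ring
  · rw [e]; ring
  · rw [e]; ring
  · rw [e]
    have h1 : |t * (1 - t) ^ k + (1 - t) * (-t) ^ k| ≤ t * (1 - t) ^ k + (1 - t) * t ^ k := by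
      refine (abs_add_le _ _).trans (add_le_add ?_ ?_)
      · rw [abs_of_nonneg (by positivity)]
      · rw [abs_mul, abs_pow, abs_neg, abs_of_pos ht0, abs_of_nonneg h1t]
    have h2 : (1 - t) ^ k ≤ (1 - t) ^ 2 := pow_le_pow_of_le_one h1t (by linarith) hk
    have h3 : t ^ k ≤ t ^ 2 := pow_le_pow_of_le_one ht0.le ht1 hk
    have h4 : t * (1 - t) ^ k ≤ t * (1 - t) ^ 2 := by gcongr
    have h5 : (1 - t) * t ^ k ≤ (1 - t) * t ^ 2 := by gcongr
    have h6 : t * (1 - t) ^ 2 + (1 - t) * t ^ 2 = t * (1 - t) := by ring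
    linarith
  · positivity
  · nlinarith

variable {p : ℕ} [hp : Fact p.Prime] {n d : ℕ}

open Classical in
/-- The centred indicator of the hypersurface at a point. -/
noncomputable def zz (x : NV p n) (c : Mon n d → ZMod p) : ℝ :=
  (if ev c x = 0 then 1 else 0) - 1 / (p : ℝ) ^ deg x

theorem zz_Fr (x : NV p n) (c : Mon n d → ZMod p) : zz (Fr x) c = zz x c := by
  unfold zz
  rw [deg_Fr, ev_Fr]
  have h : ev c x ^ p = 0 ↔ ev c x = 0 := pow_eq_zero_iff hp.out.ne_zero
  by_cases h1 : ev c x = 0
  · rw [if_pos h1, if_pos (h.2 h1)]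
  · rw [if_neg h1, if_neg fun h2 => h1 (h.1 h2)]

/-- Functions which depend only on the values at points whose number is at most `D`, different from
`x`, and sums of such functions. -/
inductive Dep (x : NV p n) (D : ℕ) : ((Mon n d → ZMod p) → ℝ) → Prop
  | base (T : Finset (NV p n)) (g : (Mon n d → ZMod p) → ℝ) (hT : ∀ t ∈ T, Fr t ∈ T)
      (hx : x ∉ T) (hc : T.card ≤ D)
      (hg : ∀ c b, (∀ t ∈ T, ev b t = 0) → g (c + b) = g c) : Dep x D g
  | add (g h : (Mon n d → ZMod p) → ℝ) : Dep x D g → Dep x D h → Dep x D (fun c => g c + h c)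

variable {x : NV p n}

theorem Dep.const (t : ℝ) (D : ℕ) : Dep (d := d) x D fun _ => t :=
  Dep.base ∅ _ (fun _ h => absurd h (Finset.notMem_empty _)) (Finset.notMem_empty _)
    (by rw [Finset.card_empty]; exact Nat.zero_le _) fun _ _ _ => rfl

theorem Dep.mul_base {D D' : ℕ} (T : Finset (NV p n)) (g : (Mon n d → ZMod p) → ℝ)
    (hT : ∀ t ∈ T, Fr t ∈ T) (hx : x ∉ T) (hc : T.card ≤ D)
    (hg : ∀ c b, (∀ t ∈ T, ev b t = 0) → g (c + b) = g c) {h : (Mon n d → ZMod p) → ℝ}
    (hh : Dep x D' h) : Dep x (D + D') fun c => g c * h c := by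
  classical
  induction hh with
  | base T' h hT' hx' hc' hg' =>
    refine Dep.base (T ∪ T') _ (fun t ht => ?_) ?_ ?_ fun c b hb => ?_
    · rcases Finset.mem_union.1 ht with ht | ht
      · exact Finset.mem_union_left _ (hT t ht)
      · exact Finset.mem_union_right _ (hT' t ht)
    · rw [Finset.mem_union, not_or]
      exact ⟨hx, hx'⟩
    · exact (Finset.card_union_le _ _).trans (add_le_add hc hc')
    · rw [hg c b fun t ht => hb t (Finset.mem_union_left _ ht),
        hg' c b fun t ht => hb t (Finset.mem_union_right _ ht)]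
  | add h h' _ _ ih ih' =>
    have e : (fun c => g c * (h c + h' c)) = fun c => g c * h c + g c * h' c := by
      funext c
      ring
    rw [e]
    exact Dep.add _ _ ih ih'

theorem Dep.mul {D D' : ℕ} {g h : (Mon n d → ZMod p) → ℝ} (hg : Dep x D g) (hh : Dep x D' h) :
    Dep x (D + D') fun c => g c * h c := by
  induction hg with
  | base T g hT hx hc hg => exact Dep.mul_base T g hT hx hc hg hh
  | add g g' _ _ ih ih' =>
    have e : (fun c => (g c + g' c) * h c) = fun c => g c * h c + g' c * h c := by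
      funext c
      ring
    rw [e]
    exact Dep.add _ _ ih ih'

theorem Dep.sum {ι : Type*} (s : Finset ι) {D : ℕ} (f : ι → (Mon n d → ZMod p) → ℝ)
    (hf : ∀ i ∈ s, Dep x D (f i)) : Dep x D fun c => ∑ i ∈ s, f i c := by
  classical
  induction s using Finset.induction_on with
  | empty =>
    simp only [Finset.sum_empty]
    exact Dep.const 0 D
  | insert i s hi ih =>
    simp only [Finset.sum_insert hi]
    exact Dep.add _ _ (hf i (Finset.mem_insert_self _ _))
      (ih fun k hk => hf k (Finset.mem_insert_of_mem hk))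

theorem Dep.pow {D : ℕ} {g : (Mon n d → ZMod p) → ℝ} (hg : Dep x D g) (k : ℕ) :
    Dep x (D * k) fun c => g c ^ k := by
  induction k with
  | zero =>
    simp only [pow_zero]
    exact Dep.const 1 _
  | succ k ih =>
    simp only [pow_succ]
    exact ih.mul hg

theorem Dep.prod {ι : Type*} (s : Finset ι) (D : ι → ℕ) (f : ι → (Mon n d → ZMod p) → ℝ)
    (hf : ∀ i ∈ s, Dep x (D i) (f i)) : Dep x (∑ i ∈ s, D i) fun c => ∏ i ∈ s, f i c := by
  classical
  induction s using Finset.induction_on with
  | empty =>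
    simp only [Finset.prod_empty]
    exact Dep.const 1 _
  | insert i s hi ih =>
    simp only [Finset.prod_insert hi, Finset.sum_insert hi]
    exact (hf i (Finset.mem_insert_self _ _)).mul (ih fun k hk => hf k (Finset.mem_insert_of_mem hk))

theorem Dep.zz {t : NV p n} (ht : ∀ i, Fr^[i] t ≠ x) : Dep (d := d) x (deg t) (zz t) := by
  classical
  refine Dep.base ((range (deg t)).image fun i => Fr^[i] t) _ (fun v hv => ?_) ?_
    (Finset.card_image_le.trans (Finset.card_range _).le) fun c b hb => ?_
  · obtain ⟨i, hi, rfl⟩ := Finset.mem_image.1 hv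
    rw [← Function.iterate_succ_apply' Fr i t]
    refine Finset.mem_image.2 ⟨(i + 1) % deg t, Finset.mem_range.2 (Nat.mod_lt _ (deg_pos t)), ?_⟩
    exact Function.iterate_mod_minimalPeriod_eq (f := Fr) (x := t) (n := i + 1)
  · intro h
    obtain ⟨i, -, hi⟩ := Finset.mem_image.1 h
    exact ht i hi
  · have h1 : ev b t = 0 := hb t (Finset.mem_image.2 ⟨0, Finset.mem_range.2 (deg_pos t), rfl⟩)
    unfold HV.zz
    rw [ev_add, h1, add_zero]

/-- **Independence.** -/
theorem EM_ind {D : ℕ} {h : (Mon n d → ZMod p) → ℝ} (hd : Dep x D h) (hD : D + deg x ≤ d + 1) :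
    EM p (fun c => (open Classical in if ev c x = 0 then (1 : ℝ) else 0) * h c) =
      1 / (p : ℝ) ^ deg x * EM p h := by
  classical
  induction hd with
  | base T g hT hx hc hg =>
    obtain ⟨Y, hY, hYc⟩ := card_fix (p := p) (deg x) (deg_pos x)
    have h1 : ∀ y ∈ Y, ∃ b : Mon n d → ZMod p, ev b x = y ∧ ∀ t ∈ T, ev b t = 0 := fun y hy =>
      dirP x T hT hx (by omega) y ((hY y).1 hy)
    choose! b hb1 hb2 using h1
    set S : ℝ := ∑ c : Mon n d → ZMod p, (if ev c x = 0 then (1 : ℝ) else 0) * g c with hS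
    have h2 : ∀ y ∈ Y, S = ∑ c : Mon n d → ZMod p, (if ev c x = -y then (1 : ℝ) else 0) * g c := by
      intro y hy
      rw [hS, ← Equiv.sum_comp (Equiv.addRight (b y))]
      refine Finset.sum_congr rfl fun c _ => ?_
      rw [Equiv.coe_addRight, hg c (b y) (hb2 y hy), ev_add, hb1 y hy]
      have h3 : ev c x + y = 0 ↔ ev c x = -y := add_eq_zero_iff_eq_neg
      simp only [h3]
    have h3 : (Y.card : ℝ) * S = ∑ c : Mon n d → ZMod p, g c := by
      rw [← nsmul_eq_mul, ← Finset.sum_const, Finset.sum_congr rfl h2, Finset.sum_comm]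
      refine Finset.sum_congr rfl fun c _ => ?_
      rw [← Finset.sum_mul]
      have h4 : ∑ y ∈ Y, (if ev c x = -y then (1 : ℝ) else 0) = 1 := by
        rw [Finset.sum_eq_single (-ev c x)]
        · rw [neg_neg, if_pos rfl]
        · intro y _ hy
          rw [if_neg]
          intro h5
          apply hy
          rw [h5, neg_neg]
        · intro h5
          exfalso
          apply h5
          rw [hY]
          have h6 := ev_fix c x
          have h7 : (-ev c x) ^ p ^ deg x = -(ev c x ^ p ^ deg x) := by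
            have h8 := add_pow_char_pow (-ev c x) (ev c x) p (deg x)
            rw [neg_add_cancel, zero_pow (pow_pos hp.out.pos _).ne'] at h8
            exact eq_neg_of_add_eq_zero_left h8.symm
          rw [h7, h6]
      rw [h4, one_mul]
    rw [hYc] at h3
    push_cast at h3
    have hp0 : (0 : ℝ) < (p : ℝ) ^ deg x := by
      have := hp.out.pos
      positivity
    unfold EM
    rw [← hS, ← h3]
    field_simp
  | add g h _ _ ih ih' =>
    have e : (fun c : Mon n d → ZMod p => (if ev c x = 0 then (1 : ℝ) else 0) * (g c + h c)) =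
        fun c => (if ev c x = 0 then (1 : ℝ) else 0) * g c +
          (if ev c x = 0 then (1 : ℝ) else 0) * h c := by
      funext c
      ring
    rw [e, EM_add', EM_add', ih, ih', mul_add]

theorem EM_split {D : ℕ} {h : (Mon n d → ZMod p) → ℝ} (hd : Dep x D h) (hD : D + deg x ≤ d + 1)
    (k : ℕ) : EM p (fun c => zz x c ^ k * h c) = eb ((p : ℝ) ^ deg x) k * EM p h := by
  classical
  obtain ⟨t, ht⟩ : ∃ t, 1 / (p : ℝ) ^ deg x = t := ⟨_, rfl⟩
  have e : (fun c : Mon n d → ZMod p => zz x c ^ k * h c) = fun c =>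
      (-t) ^ k * h c + ((1 - t) ^ k - (-t) ^ k) *
        ((if ev c x = 0 then (1 : ℝ) else 0) * h c) := by
    funext c
    unfold zz
    rw [ht]
    split_ifs with h1
    · ring
    · ring
  rw [e, EM_add', EM_mul', EM_mul']
  have h1 := EM_ind hd hD
  rw [ht] at h1
  unfold eb
  rw [ht, h1]
  ring

/-- The sum of the centred indicators over the points of degree `j` in `A`. -/
noncomputable def SJ (A : Finset (NV p n)) (j : ℕ) (c : Mon n d → ZMod p) : ℝ :=
  ∑ x ∈ A with deg x = j, zz x c

theorem Dep_SJ (A : Finset (NV p n)) (hx : ∀ t ∈ A, ∀ i, Fr^[i] t ≠ x) (j : ℕ) :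
    Dep (d := d) x j (SJ A j) := by
  unfold SJ
  refine Dep.sum _ _ fun t ht => ?_
  rw [Finset.mem_filter] at ht
  have h := Dep.zz (d := d) (hx t ht.1)
  rw [ht.2] at h
  exact h

/-- **The joint moments.** -/
theorem EM_joint (r : ℕ) (A : Finset (NV p n)) (hA : ∀ a ∈ A, ∀ b ∈ A, ∀ i, Fr^[i] a = b → a = b) :
    ∀ a : ℕ → ℕ, ∑ j ∈ Icc 1 r, j * a j ≤ d + 1 →
    EM p (fun c : Mon n d → ZMod p => ∏ j ∈ Icc 1 r, SJ A j c ^ a j) =
      ∏ j ∈ Icc 1 r, ME (eb ((p : ℝ) ^ j)) (A.filter fun x => deg x = j).card (a j) := by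
  classical
  induction A using Finset.induction_on with
  | empty =>
    intro a _
    have e : (fun c : Mon n d → ZMod p => ∏ j ∈ Icc 1 r, SJ (∅ : Finset (NV p n)) j c ^ a j) =
        fun _ => ∏ j ∈ Icc 1 r, (if a j = 0 then (1 : ℝ) else 0) := by
      funext c
      refine Finset.prod_congr rfl fun j _ => ?_
      unfold SJ
      rw [Finset.filter_empty, Finset.sum_empty]
      split_ifs with h
      · rw [h, pow_zero]
      · rw [zero_pow h]
    rw [e, EM_const']
    refine Finset.prod_congr rfl fun j _ => ?_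
    rw [Finset.filter_empty, Finset.card_empty, ME]
  | insert x A hx ih =>
    intro a ha
    have ih' := ih fun a ha b hb => hA a (Finset.mem_insert_of_mem ha) b (Finset.mem_insert_of_mem hb)
    have hxA : ∀ t ∈ A, ∀ i, Fr^[i] t ≠ x := by
      intro t ht i hi
      have := hA t (Finset.mem_insert_of_mem ht) x (Finset.mem_insert_self _ _) i hi
      rw [this] at ht
      exact hx ht
    obtain ⟨j0, hj0⟩ : ∃ j0, deg x = j0 := ⟨_, rfl⟩
    have hne : ∀ j, j ≠ j0 → (insert x A).filter (fun y => deg y = j) = A.filter fun y => deg y = j := by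
      intro j hj
      rw [Finset.filter_insert, if_neg (by rw [hj0]; exact Ne.symm hj)]
    have hne' : ∀ j, j ≠ j0 → ∀ c : Mon n d → ZMod p, SJ (insert x A) j c = SJ A j c := by
      intro j hj c
      unfold SJ
      rw [hne j hj]
    by_cases hjr : j0 ∈ Icc 1 r
    · have hcard : ((insert x A).filter fun y => deg y = j0).card =
          (A.filter fun y => deg y = j0).card + 1 := by
        rw [Finset.filter_insert, if_pos hj0, Finset.card_insert_of_notMem
          fun h => hx (Finset.mem_filter.1 h).1]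
      have hSJ : ∀ c : Mon n d → ZMod p, SJ (insert x A) j0 c = zz x c + SJ A j0 c := by
        intro c
        unfold SJ
        rw [Finset.filter_insert, if_pos hj0, Finset.sum_insert
          fun h => hx (Finset.mem_filter.1 h).1]
      have hup : ∀ k, ∀ c : Mon n d → ZMod p,
          ∏ j ∈ Icc 1 r, SJ A j c ^ Function.update a j0 (a j0 - k) j =
            SJ A j0 c ^ (a j0 - k) * ∏ j ∈ (Icc 1 r).erase j0, SJ A j c ^ a j := by
        intro k c
        rw [← Finset.mul_prod_erase _ _ hjr, Function.update_self]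
        congr 1
        refine Finset.prod_congr rfl fun j hj => ?_
        rw [Function.update_of_ne (Finset.ne_of_mem_erase hj)]
      have e : (fun c : Mon n d → ZMod p => ∏ j ∈ Icc 1 r, SJ (insert x A) j c ^ a j) = fun c =>
          ∑ k ∈ range (a j0 + 1), ((a j0).choose k : ℝ) *
            (zz x c ^ k * ∏ j ∈ Icc 1 r, SJ A j c ^ Function.update a j0 (a j0 - k) j) := by
        funext c
        rw [← Finset.mul_prod_erase _ _ hjr, hSJ, add_pow, Finset.sum_mul]
        refine Finset.sum_congr rfl fun k _ => ?_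
        rw [hup, Finset.prod_congr rfl fun j hj => by rw [hne' j (Finset.ne_of_mem_erase hj)]]
        ring
      have hsum : ∀ k, k ≤ a j0 → ∑ j ∈ Icc 1 r, j * Function.update a j0 (a j0 - k) j + k * j0 =
          ∑ j ∈ Icc 1 r, j * a j := by
        intro k hk
        rw [← Finset.add_sum_erase _ _ hjr, Function.update_self, ← Finset.add_sum_erase _ _ hjr]
        have h1 : ∑ j ∈ (Icc 1 r).erase j0, j * Function.update a j0 (a j0 - k) j =
            ∑ j ∈ (Icc 1 r).erase j0, j * a j := by
          refine Finset.sum_congr rfl fun j hj => ?_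
          rw [Function.update_of_ne (Finset.ne_of_mem_erase hj)]
        rw [h1]
        obtain ⟨l, hl⟩ := Nat.exists_eq_add_of_le hk
        rw [hl, Nat.add_sub_cancel_left]
        ring
      rw [e, EM_sum', ← Finset.mul_prod_erase _ _ hjr, hcard, ME, Finset.sum_mul]
      refine Finset.sum_congr rfl fun k hk => ?_
      rw [Finset.mem_range] at hk
      rw [EM_mul']
      have h2 := ih' (Function.update a j0 (a j0 - k)) (by have := hsum k (by omega); omega)
      have h3 : ∏ j ∈ Icc 1 r, ME (eb ((p : ℝ) ^ j)) (A.filter fun x => deg x = j).card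
          (Function.update a j0 (a j0 - k) j) =
          ME (eb ((p : ℝ) ^ j0)) (A.filter fun x => deg x = j0).card (a j0 - k) *
          ∏ j ∈ (Icc 1 r).erase j0, ME (eb ((p : ℝ) ^ j))
            ((insert x A).filter fun x => deg x = j).card (a j) := by
        rw [← Finset.mul_prod_erase _ _ hjr, Function.update_self]
        congr 1
        refine Finset.prod_congr rfl fun j hj => ?_
        rw [Function.update_of_ne (Finset.ne_of_mem_erase hj), hne j (Finset.ne_of_mem_erase hj)]
      rcases Nat.eq_zero_or_pos k with rfl | hk0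
      · have h4 : eb ((p : ℝ) ^ j0) 0 = 1 := (adm_eb (one_le_pow₀ (by
          exact_mod_cast hp.out.one_lt.le))).e0
        simp only [pow_zero, one_mul]
        rw [h2, h3, h4]
        ring
      · have h4 : Dep (d := d) x (∑ j ∈ Icc 1 r, j * Function.update a j0 (a j0 - k) j)
            fun c => ∏ j ∈ Icc 1 r, SJ A j c ^ Function.update a j0 (a j0 - k) j :=
          Dep.prod _ _ _ fun j _ => (Dep_SJ A hxA j).pow _
        have h5 : j0 ≤ k * j0 := Nat.le_mul_of_pos_left j0 hk0
        rw [EM_split h4 (by have := hsum k (by omega); omega), h2, h3, hj0]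
        ring
    · have hj : ∀ j ∈ Icc 1 r, j ≠ j0 := fun j hj h => hjr (h ▸ hj)
      have e : (fun c : Mon n d → ZMod p => ∏ j ∈ Icc 1 r, SJ (insert x A) j c ^ a j) = fun c =>
          ∏ j ∈ Icc 1 r, SJ A j c ^ a j := by
        funext c
        exact Finset.prod_congr rfl fun j hj' => by rw [hne' j (hj j hj')]
      rw [e, ih' a ha]
      exact Finset.prod_congr rfl fun j hj' => by rw [hne j (hj j hj')]

end Pool.Agent.K1H81.HV
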