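import Pool.Agent.X280.HG.Final

/-!
# Geometric points of the projective space over a prime field, the Frobenius map, and forms with given
values at closed points
-/

set_option autoImplicit false
set_option linter.unusedSectionVars false

namespace Pool.Agent.K1H81.HV

open Finset hiding val
open Polynomial (X C derivative)
open Pool.Agent.Y722.HS Pool.Agent.X280.HG

/-- The algebraic closure of the prime field. -/
abbrev KK (p : ℕ) [Fact p.Prime] : Type := AlgebraicClosure (ZMod p)

/-- The first coordinate different from zero is one. -/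
def Nm {n : ℕ} {κ : Type*} [Field κ] (v : Fin (n + 1) → κ) : Prop :=
  ∃ i, v i = 1 ∧ ∀ j, j < i → v j = 0

section
variable {κ : Type*} [Field κ] {n d : ℕ}

theorem Nm_smul {y : Fin (n + 1) → κ} {t : κ} (hy : Nm y) (h : Nm (t • y)) : t = 1 := by
  obtain ⟨i, h1, h2⟩ := hy
  obtain ⟨k, h3, h4⟩ := h
  rw [Pi.smul_apply, smul_eq_mul] at h3
  have hk : ¬ k < i := fun hki => by
    rw [h2 k hki, mul_zero] at h3
    exact zero_ne_one h3
  have hi : ¬ i < k := fun hik => by
    have h5 := h4 i hik
    rw [Pi.smul_apply, smul_eq_mul, h1, mul_one] at h5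
    rw [h5, zero_mul] at h3
    exact zero_ne_one h3
  have : k = i := le_antisymm (not_lt.1 hi) (not_lt.1 hk)
  rw [this, h1, mul_one] at h3
  exact h3

/-- A linear form with value one at `x` and zero at `y`. -/
theorem sepN (x y : Fin (n + 1) → κ) (hx : Nm x) (hy : Nm y) (h : x ≠ y) :
    ∃ a : Fin (n + 1) → κ, ∑ l, a l * x l = 1 ∧ ∑ l, a l * y l = 0 := by
  classical
  obtain ⟨i, h1, h2⟩ := id hy
  have h3 : ∃ l, x l ≠ x i * y l := by
    by_contra hcon
    push Not at hcon
    have h4 : x = x i • y := funext hcon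
    have h5 : x i = 1 := Nm_smul (y := y) hy (h4 ▸ hx)
    apply h
    rw [h4, h5, one_smul]
  obtain ⟨l, hl⟩ := h3
  have hs : ∀ z : Fin (n + 1) → κ, ∑ k, ((x l - x i * y l)⁻¹ *
      ((Pi.single l 1 : Fin (n + 1) → κ) k - y l * (Pi.single i 1 : Fin (n + 1) → κ) k)) * z k =
      (x l - x i * y l)⁻¹ * (z l - y l * z i) := by
    intro z
    simp only [mul_assoc, sub_mul]
    rw [← Finset.mul_sum, Finset.sum_sub_distrib]
    congr 2
    · rw [Finset.sum_eq_single l (fun b _ hb => by rw [Pi.single_eq_of_ne hb, zero_mul])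
        (fun hb => absurd (Finset.mem_univ _) hb), Pi.single_eq_same, one_mul]
    · rw [← Finset.mul_sum]
      congr 1
      rw [Finset.sum_eq_single i (fun b _ hb => by rw [Pi.single_eq_of_ne hb, zero_mul])
        (fun hb => absurd (Finset.mem_univ _) hb), Pi.single_eq_same, one_mul]
  refine ⟨fun k => (x l - x i * y l)⁻¹ *
      ((Pi.single l 1 : Fin (n + 1) → κ) k - y l * (Pi.single i 1 : Fin (n + 1) → κ) k), ?_, ?_⟩
  · rw [hs, mul_comm (y l)]
    exact inv_mul_cancel₀ (sub_ne_zero.2 hl)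
  · rw [hs, h1, mul_one, sub_self, mul_zero]

/-- A form with value one at `x` and zero at the points of `W`. -/
theorem dirN (x : Fin (n + 1) → κ) (hx : Nm x) (W : Finset (Fin (n + 1) → κ))
    (hW : ∀ w ∈ W, Nm w) (hxW : x ∉ W) (hc : W.card ≤ d) :
    ∃ L : Mon n d → κ, val L x = 1 ∧ ∀ w ∈ W, val L w = 0 := by
  classical
  have hone : ∃ a : Fin (n + 1) → κ, ∑ l, a l * x l = 1 := by
    obtain ⟨k, hk, -⟩ := hx
    refine ⟨Pi.single k 1, ?_⟩
    rw [Finset.sum_eq_single k (fun b _ hb => by rw [Pi.single_eq_of_ne hb, zero_mul])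
        (fun hb => absurd (Finset.mem_univ _) hb), Pi.single_eq_same, one_mul, hk]
  obtain ⟨a0, ha0⟩ := hone
  let e : W ≃ Fin W.card := W.equivFin
  have h1 : ∀ i : Fin W.card, ∃ a : Fin (n + 1) → κ, ∑ l, a l * x l = 1 ∧
      ∑ l, a l * (e.symm i).1 l = 0 := fun i =>
    sepN x _ hx (hW _ (e.symm i).2) fun h => hxW (h ▸ (e.symm i).2)
  choose a ha1 ha2 using h1
  obtain ⟨c, hcc⟩ := exists_form (n := n) (d := d) (R := κ)
    (fun i => if h : (i : ℕ) < W.card then a ⟨i, h⟩ else a0)
  refine ⟨c, ?_, fun w hw => ?_⟩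
  · rw [hcc]
    refine Finset.prod_eq_one fun i _ => ?_
    split_ifs with h
    · exact ha1 _
    · exact ha0
  · rw [hcc]
    refine Finset.prod_eq_zero (Finset.mem_univ (⟨e ⟨w, hw⟩, by have := (e ⟨w, hw⟩).2; omega⟩ : Fin d)) ?_
    rw [dif_pos (e ⟨w, hw⟩).2]
    have h2 := ha2 (e ⟨w, hw⟩)
    rw [Equiv.symm_apply_apply] at h2
    exact h2

end

section
variable {p : ℕ} [hp : Fact p.Prime] {n d : ℕ}

/-- The image of a finite field. -/
theorem range_iff {κ : Type*} [Field κ] [Fintype κ] (ι : κ →+* KK p) (g : KK p) :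
    g ^ Fintype.card κ = g ↔ ∃ b, ι b = g := by
  classical
  have hq : 1 < Fintype.card κ := Fintype.one_lt_card
  set P : Polynomial (KK p) := X ^ Fintype.card κ - X with hP
  have hP0 : P ≠ 0 := FiniteField.X_pow_card_sub_X_ne_zero _ hq
  have hroot : ∀ z : KK p, z ∈ P.roots.toFinset ↔ z ^ Fintype.card κ = z := by
    intro z
    rw [Multiset.mem_toFinset, Polynomial.mem_roots hP0, Polynomial.IsRoot.def, hP]
    simp [sub_eq_zero]
  have himg : (univ.image ι : Finset (KK p)) ⊆ P.roots.toFinset := by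
    intro z hz
    obtain ⟨b, -, rfl⟩ := Finset.mem_image.1 hz
    rw [hroot, ← map_pow, FiniteField.pow_card]
  have hcard : P.roots.toFinset.card ≤ (univ.image ι : Finset (KK p)).card := by
    rw [Finset.card_image_of_injective _ ι.injective, Finset.card_univ]
    refine (Multiset.toFinset_card_le _).trans ((Polynomial.card_roots' P).trans ?_)
    rw [hP, FiniteField.X_pow_card_sub_X_natDegree_eq _ hq]
  have heq := Finset.eq_of_subset_of_card_le himg hcard
  rw [← hroot, ← heq, Finset.mem_image]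
  simp

theorem mem_prime (g : KK p) (h : g ^ p = g) : ∃ b : ZMod p, algebraMap (ZMod p) (KK p) b = g := by
  have := (range_iff (algebraMap (ZMod p) (KK p)) g).1 (by rw [ZMod.card]; exact h)
  exact this

theorem exists_pow_fix (a : KK p) : ∃ k, 0 < k ∧ a ^ p ^ k = a := by
  have h1 : IsIntegral (ZMod p) a := Algebra.IsIntegral.isIntegral a
  let A := IntermediateField.adjoin (ZMod p) {a}
  have h2 : FiniteDimensional (ZMod p) A := IntermediateField.adjoin.finiteDimensional h1
  have h3 : Finite A := Module.finite_of_finite (ZMod p)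
  let _ := Fintype.ofFinite A
  obtain ⟨k, _, hk⟩ := FiniteField.card A p
  have h4 := FiniteField.pow_card (⟨a, IntermediateField.mem_adjoin_simple_self _ a⟩ : A)
  rw [hk] at h4
  exact ⟨k, k.pos, congrArg Subtype.val h4⟩

theorem pow_fix_mul {a : KK p} {k : ℕ} (h : a ^ p ^ k = a) (m : ℕ) : a ^ p ^ (k * m) = a := by
  induction m with
  | zero => simp
  | succ m ih => rw [Nat.mul_succ, pow_add, pow_mul, ih, h]

theorem exists_pow_fix_finset (s : Finset (KK p)) : ∃ k, 0 < k ∧ ∀ a ∈ s, a ^ p ^ k = a := by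
  classical
  induction s using Finset.induction_on with
  | empty => exact ⟨1, one_pos, by simp⟩
  | insert b s _ ih =>
    obtain ⟨k, hk, h⟩ := ih
    obtain ⟨l, hl, h'⟩ := exists_pow_fix b
    refine ⟨k * l, Nat.mul_pos hk hl, fun a ha => ?_⟩
    rcases Finset.mem_insert.1 ha with rfl | ha
    · rw [mul_comm]
      exact pow_fix_mul h' k
    · exact pow_fix_mul (h a ha) l

/-- The geometric points of the projective space, given by normalised vectors. -/
abbrev NV (p n : ℕ) [Fact p.Prime] : Type := {v : Fin (n + 1) → KK p // Nm v}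

/-- The Frobenius map. -/
noncomputable def Fr (v : NV p n) : NV p n := ⟨fun i => v.1 i ^ p, by
  obtain ⟨i, h1, h2⟩ := v.2
  refine ⟨i, by simp only [h1, one_pow], fun j hj => ?_⟩
  simp only [h2 j hj]
  exact zero_pow hp.out.ne_zero⟩

theorem Fr_iter (k : ℕ) (v : NV p n) (i : Fin (n + 1)) : (Fr^[k] v).1 i = v.1 i ^ p ^ k := by
  induction k with
  | zero => simp
  | succ k ih =>
    rw [Function.iterate_succ_apply']
    change (Fr^[k] v).1 i ^ p = _
    rw [ih, ← pow_mul, pow_succ]

theorem Fr_inj : Function.Injective (Fr : NV p n → NV p n) := by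
  intro v w h
  refine Subtype.ext (funext fun i => ?_)
  have h1 : v.1 i ^ p = w.1 i ^ p := congrFun (congrArg Subtype.val h) i
  exact frobenius_inj (KK p) p h1

theorem NV_ext {v w : NV p n} (h : ∀ i, v.1 i = w.1 i) : v = w := Subtype.ext (funext h)

theorem exists_period (T : Finset (NV p n)) : ∃ k, 0 < k ∧ ∀ t ∈ T, Fr^[k] t = t := by
  classical
  obtain ⟨k, hk, h⟩ := exists_pow_fix_finset (T.biUnion fun t => univ.image t.1)
  refine ⟨k, hk, fun t ht => NV_ext fun i => ?_⟩
  rw [Fr_iter]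
  exact h _ (Finset.mem_biUnion.2 ⟨t, ht, Finset.mem_image_of_mem _ (Finset.mem_univ i)⟩)

/-- The degree of a point: the length of the orbit of Frobenius. -/
noncomputable def deg (v : NV p n) : ℕ := Function.minimalPeriod Fr v

theorem deg_pos (v : NV p n) : 0 < deg v := by
  obtain ⟨k, hk, h⟩ := exists_period {v}
  exact Function.minimalPeriod_pos_of_mem_periodicPts ⟨k, hk, h v (Finset.mem_singleton_self v)⟩

theorem iter_eq_iff (v : NV p n) (k : ℕ) : Fr^[k] v = v ↔ deg v ∣ k :=
  Function.isPeriodicPt_iff_minimalPeriod_dvd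

theorem deg_Fr (v : NV p n) : deg (Fr v) = deg v := by
  have h : v ∈ Function.periodicPts Fr := by
    obtain ⟨k, hk, h⟩ := exists_period {v}
    exact ⟨k, hk, h v (Finset.mem_singleton_self v)⟩
  exact Function.minimalPeriod_apply h

/-- The value of a form over the prime field at a geometric point. -/
noncomputable def ev (c : Mon n d → ZMod p) (v : NV p n) : KK p :=
  val (fun μ => algebraMap (ZMod p) (KK p) (c μ)) v.1

theorem mev_pow (x : Fin (n + 1) → KK p) (k : ℕ) (μ : Mon n d) :
    mev (fun i => x i ^ k) μ = mev x μ ^ k := by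
  unfold mev
  rw [← Finset.prod_pow]
  refine Finset.prod_congr rfl fun i _ => ?_
  rw [← pow_mul, ← pow_mul, mul_comm]

theorem sum_pow_p {ι : Type*} (s : Finset ι) (f : ι → KK p) (k : ℕ) :
    (∑ i ∈ s, f i) ^ p ^ k = ∑ i ∈ s, f i ^ p ^ k :=
  sum_pow_char_pow p k s f

theorem ev_Fr (c : Mon n d → ZMod p) (v : NV p n) : ev c (Fr v) = ev c v ^ p := by
  unfold ev val
  have h := sum_pow_p univ (fun μ => algebraMap (ZMod p) (KK p) (c μ) * mev v.1 μ) 1
  rw [pow_one] at h
  rw [h]
  refine Finset.sum_congr rfl fun μ _ => ?_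
  rw [mul_pow, ← map_pow, ZMod.pow_card]
  congr 1
  exact mev_pow v.1 p μ

theorem ev_iter (c : Mon n d → ZMod p) (k : ℕ) (v : NV p n) : ev c (Fr^[k] v) = ev c v ^ p ^ k := by
  induction k with
  | zero => simp
  | succ k ih =>
    rw [Function.iterate_succ_apply', ev_Fr, ih, ← pow_mul, pow_succ]

theorem ev_add (b c : Mon n d → ZMod p) (v : NV p n) : ev (b + c) v = ev b v + ev c v := by
  unfold ev val
  rw [← Finset.sum_add_distrib]
  refine Finset.sum_congr rfl fun μ _ => ?_
  change algebraMap (ZMod p) (KK p) (b μ + c μ) * mev v.1 μ = _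
  rw [map_add, add_mul]

theorem ev_fix (c : Mon n d → ZMod p) (v : NV p n) : ev c v ^ p ^ deg v = ev c v := by
  rw [← ev_iter, (iter_eq_iff v _).2 dvd_rfl]

/-- A root of the trace polynomial. -/
theorem exists_trace (j k : ℕ) (hj : 0 < j) (hk : 0 < k) (y : KK p) (hy : y ^ p ^ j = y) :
    ∃ β : KK p, ∑ i ∈ range k, β ^ p ^ (j * i) = y ∧ β ^ p ^ (j * k) = β := by
  obtain ⟨m, rfl⟩ : ∃ m, k = m + 1 := ⟨k - 1, by omega⟩
  set P : Polynomial (KK p) := ∑ i ∈ range (m + 1), X ^ p ^ (j * i) - C y with hP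
  have hder : derivative P = 1 := by
    rw [hP, Polynomial.derivative_sub, Polynomial.derivative_C, sub_zero,
      Polynomial.derivative_sum, Finset.sum_range_succ']
    have h1 : ∀ i ∈ range m, derivative (X ^ p ^ (j * (i + 1)) : Polynomial (KK p)) = 0 := by
      intro i _
      rw [Polynomial.derivative_X_pow]
      have h2 : ((p ^ (j * (i + 1)) : ℕ) : KK p) = 0 := by
        rw [Nat.cast_pow, CharP.cast_eq_zero]
        exact zero_pow (Nat.mul_pos hj (Nat.succ_pos i)).ne'
      rw [h2, Polynomial.C_0, zero_mul]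
    rw [Finset.sum_eq_zero h1]
    simp
  have hdeg : P.degree ≠ 0 := by
    intro h
    have h1 := Polynomial.eq_C_of_degree_eq_zero h
    rw [h1, Polynomial.derivative_C] at hder
    exact zero_ne_one hder
  obtain ⟨β, hβ⟩ := IsAlgClosed.exists_root P hdeg
  have h1 : ∑ i ∈ range (m + 1), β ^ p ^ (j * i) = y := by
    have h2 : P.eval β = 0 := hβ
    rw [hP] at h2
    simp only [Polynomial.eval_sub, Polynomial.eval_finsetSum, Polynomial.eval_pow,
      Polynomial.eval_X, Polynomial.eval_C] at h2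
    exact sub_eq_zero.1 h2
  refine ⟨β, h1, ?_⟩
  have h3 : ∑ i ∈ range (m + 1), β ^ p ^ (j * (i + 1)) = ∑ i ∈ range (m + 1), β ^ p ^ (j * i) := by
    rw [h1]
    conv_rhs => rw [← hy, ← h1]
    rw [sum_pow_p]
    refine Finset.sum_congr rfl fun i _ => ?_
    rw [← pow_mul, ← pow_add, Nat.mul_succ]
  rw [Finset.sum_range_succ, Finset.sum_range_succ' (fun i => β ^ p ^ (j * i))] at h3
  have h4 := add_left_cancel h3
  rw [h4]
  simp

/-- Sums over the multiples of `j`. -/
theorem sum_mult (j k : ℕ) (hj : 0 < j) (f : ℕ → KK p) :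
    ∑ i ∈ range (j * k), (if j ∣ i then f i else 0) = ∑ i ∈ range k, f (j * i) := by
  induction k with
  | zero => simp
  | succ k ih =>
    rw [Nat.mul_succ, Finset.sum_range_add, ih, Finset.sum_range_succ]
    congr 1
    rw [Finset.sum_eq_single 0]
    · rw [add_zero, if_pos (dvd_mul_right j k)]
    · intro b hb hb0
      rw [Finset.mem_range] at hb
      rw [if_neg]
      intro h
      have h1 : j ∣ b := (Nat.dvd_add_right (dvd_mul_right j k)).1 h
      exact hb0 (Nat.eq_zero_of_dvd_of_lt h1 hb)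
    · intro h
      exact absurd (Finset.mem_range.2 hj) h

/-- **Forms with given values at a closed point and zeros at others.** -/
theorem dirP (a : NV p n) (T : Finset (NV p n)) (hT : ∀ t ∈ T, Fr t ∈ T) (ha : a ∉ T)
    (hc : T.card + deg a ≤ d + 1) (y : KK p) (hy : y ^ p ^ deg a = y) :
    ∃ b : Mon n d → ZMod p, ev b a = y ∧ ∀ t ∈ T, ev b t = 0 := by
  classical
  obtain ⟨j, hjd⟩ : ∃ j, deg a = j := ⟨_, rfl⟩
  have hj0 : 0 < j := hjd ▸ deg_pos a
  rw [hjd] at hc hy
  -- the form over the closure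
  set W : Finset (NV p n) := T ∪ (range (j - 1)).image (fun i => Fr^[i + 1] a) with hW
  have hWc : W.card ≤ d := by
    refine (Finset.card_union_le _ _).trans ?_
    have := Finset.card_image_le (s := range (j - 1)) (f := fun i => Fr^[i + 1] a)
    rw [Finset.card_range] at this
    omega
  have haW : a ∉ W := by
    rw [hW, Finset.mem_union, not_or]
    refine ⟨ha, fun h => ?_⟩
    obtain ⟨i, hi, h1⟩ := Finset.mem_image.1 h
    rw [Finset.mem_range] at hi
    have h2 := (iter_eq_iff a (i + 1)).1 h1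
    rw [hjd] at h2
    have := Nat.le_of_dvd (Nat.succ_pos i) h2
    omega
  obtain ⟨L, hL1, hL0⟩ := dirN (d := d) a.1 a.2 (W.image Subtype.val) (fun w hw => by
      obtain ⟨v, -, rfl⟩ := Finset.mem_image.1 hw
      exact v.2) (fun h => by
      obtain ⟨v, hv, hva⟩ := Finset.mem_image.1 h
      exact haW (by rwa [Subtype.ext hva] at hv)) (Finset.card_image_le.trans hWc)
  have hL0' : ∀ w ∈ W, val L w.1 = 0 := fun w hw => hL0 _ (Finset.mem_image_of_mem _ hw)
  -- a common period
  obtain ⟨k1, hk1, h1⟩ := exists_pow_fix_finset (univ.image L)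
  obtain ⟨k2, hk2, h2⟩ := exists_period T
  obtain ⟨k, hkd⟩ : ∃ k, k1 * k2 = k := ⟨_, rfl⟩
  have hk : 0 < k := hkd ▸ Nat.mul_pos hk1 hk2
  obtain ⟨R, hR⟩ : ∃ R, j * k = R := ⟨_, rfl⟩
  have hLR : ∀ μ, L μ ^ p ^ R = L μ := by
    intro μ
    have h3 := h1 _ (Finset.mem_image_of_mem L (Finset.mem_univ μ))
    have h4 := pow_fix_mul h3 (j * k2)
    rwa [show k1 * (j * k2) = R by rw [← hR, ← hkd]; ring] at h4
  have hTR : ∀ t ∈ T, Fr^[R] t = t := by
    intro t ht
    rw [iter_eq_iff]
    refine ((iter_eq_iff t k2).1 (h2 t ht)).trans ?_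
    rw [← hR, ← hkd]
    exact ⟨j * k1, by ring⟩
  have haR : Fr^[R] a = a := by
    rw [iter_eq_iff, hjd, ← hR]
    exact dvd_mul_right _ _
  obtain ⟨β, hβ1, hβ2⟩ := exists_trace j k hj0 hk y hy
  rw [hR] at hβ2
  -- the descended form
  have hG : ∀ μ, (∑ i ∈ range R, (β * L μ) ^ p ^ i) ^ p = ∑ i ∈ range R, (β * L μ) ^ p ^ i := by
    intro μ
    have h3 := sum_pow_p (range R) (fun i => (β * L μ) ^ p ^ i) 1
    rw [pow_one] at h3
    rw [h3]
    have h4 : ∀ i ∈ range R, ((β * L μ) ^ p ^ i) ^ p = (β * L μ) ^ p ^ (i + 1) := by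
      intro i _
      rw [← pow_mul, pow_succ]
    rw [Finset.sum_congr rfl h4]
    have h5 : (β * L μ) ^ p ^ R = (β * L μ) ^ p ^ 0 := by
      rw [mul_pow, hβ2, hLR, pow_zero, pow_one]
    have h6 := Finset.sum_range_succ (fun i => (β * L μ) ^ p ^ i) R
    have h7 := Finset.sum_range_succ' (fun i => (β * L μ) ^ p ^ i) R
    rw [h6] at h7
    rw [h5] at h7
    exact (add_right_cancel h7).symm
  choose b hb using fun μ => mem_prime _ (hG μ)
  have hval : ∀ v : NV p n, Fr^[R] v = v →
      ev b v = ∑ i ∈ range R, (β * val L (Fr^[R - i] v).1) ^ p ^ i := by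
    intro v hv
    unfold ev val
    have h3 : ∀ μ, algebraMap (ZMod p) (KK p) (b μ) * mev v.1 μ =
        ∑ i ∈ range R, (β * L μ) ^ p ^ i * mev v.1 μ := by
      intro μ
      rw [hb, Finset.sum_mul]
    simp only [h3]
    rw [Finset.sum_comm]
    refine Finset.sum_congr rfl fun i hi => ?_
    rw [Finset.mem_range] at hi
    rw [Finset.mul_sum, sum_pow_p]
    refine Finset.sum_congr rfl fun μ _ => ?_
    have h4 : v.1 = fun l => (Fr^[R - i] v).1 l ^ p ^ i := by
      funext l
      have h5 : Fr^[i] (Fr^[R - i] v) = v := by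
        rw [← Function.iterate_add_apply, show i + (R - i) = R by omega, hv]
      have h6 := Fr_iter i (Fr^[R - i] v) l
      rw [h5] at h6
      exact h6
    conv_lhs => rw [h4]
    rw [mev_pow, ← mul_pow, mul_assoc]
  refine ⟨b, ?_, fun t ht => ?_⟩
  · rw [hval a haR, ← hβ1, ← sum_mult j k hj0 (fun i => β ^ p ^ i), hR]
    refine Finset.sum_congr rfl fun i hi => ?_
    rw [Finset.mem_range] at hi
    by_cases h3 : j ∣ i
    · rw [if_pos h3]
      have h4 : Fr^[R - i] a = a := by
        rw [iter_eq_iff, hjd]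
        exact Nat.dvd_sub (hR ▸ dvd_mul_right j k) h3
      rw [h4, hL1, mul_one]
    · rw [if_neg h3]
      have h4 : Fr^[R - i] a ∈ W := by
        have h5 : ¬ j ∣ (R - i) := by
          intro h6
          apply h3
          have h7 : j ∣ R := hR ▸ dvd_mul_right j k
          have h8 := Nat.dvd_sub h7 h6
          rwa [show R - (R - i) = i by omega] at h8
        have h6 : Fr^[R - i] a = Fr^[(R - i) % j] a := by
          have h7 := Function.iterate_mod_minimalPeriod_eq (f := Fr) (x := a) (n := R - i)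
          rw [show Function.minimalPeriod Fr a = j from hjd] at h7
          exact h7.symm
        rw [h6, hW, Finset.mem_union]
        right
        have h8 : 0 < (R - i) % j := Nat.pos_of_ne_zero fun h9 => h5 (Nat.dvd_of_mod_eq_zero h9)
        have h9 : (R - i) % j < j := Nat.mod_lt _ hj0
        refine Finset.mem_image.2 ⟨(R - i) % j - 1, Finset.mem_range.2 (by omega), ?_⟩
        rw [Nat.sub_add_cancel h8]
      rw [hL0' _ h4, mul_zero]
      exact zero_pow (pow_pos hp.out.pos _).ne'
  · rw [hval t (hTR t ht)]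
    refine Finset.sum_eq_zero fun i _ => ?_
    have h3 : ∀ k, Fr^[k] t ∈ T := by
      intro k
      induction k with
      | zero => exact ht
      | succ k ih =>
        rw [Function.iterate_succ_apply']
        exact hT _ ih
    rw [hL0' _ (Finset.mem_union_left _ (h3 _)), mul_zero]
    exact zero_pow (pow_pos hp.out.pos _).ne'

end

end Pool.Agent.K1H81.HV
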